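import Pool.Agent.Work.MP_8d2cba_co_h18.Interface2
import Pool.Agent.Work.MP_8d2cba_co_h18.Basic

/-! MP_8d2cba_co, block ASG: assignment of the couples 2, 3, 4 to the feeds. -/

set_option autoImplicit false

namespace Pool.OM.helper57

open Finset Pool.OM

section few
variable {α : Type}

/-- at most `a` elements of `Q` fail `p` -/
def Few (Q : Finset α) (a : ℕ) (p : α → Prop) : Prop :=
  ∀ S ⊆ Q, (∀ c ∈ S, ¬ p c) → S.card ≤ a

theorem Few.and {Q : Finset α} {a b : ℕ} {p q : α → Prop} (hp : Few Q a p) (hq : Few Q b q) :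
    Few Q (a + b) (fun c => p c ∧ q c) := by
  classical
  intro S hS h
  have h1 := hp (S.filter fun c => ¬ p c) ((filter_subset _ _).trans hS)
    (fun c hc => (mem_filter.1 hc).2)
  have h2 := hq (S.filter fun c => p c) ((filter_subset _ _).trans hS)
    (fun c hc hqc => h c (mem_filter.1 hc).1 ⟨(mem_filter.1 hc).2, hqc⟩)
  have h3 := Finset.card_filter_add_card_filter_not (s := S) (fun c => p c)
  omega

theorem few_notMem [DecidableEq α] (Q U : Finset α) : Few Q U.card (fun c => c ∉ U) := by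
  intro S _ h
  exact card_le_card fun c hc => not_not.1 (h c hc)

theorem few_all {Q : Finset α} {p : α → Prop} (h : ∀ c ∈ Q, p c) (a : ℕ) : Few Q a p := by
  intro S hS hn
  have : S = ∅ := eq_empty_of_forall_notMem fun c hc => hn c hc (h c (hS hc))
  simp [this]

theorem Few.exists {Q : Finset α} {a : ℕ} {p : α → Prop} (h : Few Q a p) (ha : a < Q.card) :
    ∃ c ∈ Q, p c := by
  by_contra hn
  push Not at hn
  exact absurd (h Q (Finset.Subset.refl _) hn) (by omega)

end few

variable {G : Type} [Group G] [Fintype G] [DecidableEq G]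

theorem few_rt (K : ℕ) {Q : Finset (Cp G)} {φ : Cp G → G} (h : Set.InjOn φ (Q : Set (Cp G))) :
    Few Q K fun c => K * rt (φ c) ≤ Fintype.card G := by
  intro S hS hn
  refine le_trans ?_ (card_badrt (G := G) K)
  refine Finset.card_le_card_of_injOn φ ?_ ?_
  · intro c hc
    have := hn c hc
    simp only [Finset.coe_filter, Finset.mem_univ, true_and, Set.mem_setOf_eq]
    omega
  · intro c hc c' hc' e
    exact h (hS hc) (hS hc') e

theorem few_cj (K : ℕ) (a : G) {Q : Finset (Cp G)} {φ : Cp G → G}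
    (h : Set.InjOn φ (Q : Set (Cp G))) :
    Few Q K fun c => K * cj a (φ c) ≤ Fintype.card G := by
  intro S hS hn
  refine le_trans ?_ (card_badcj' (G := G) K a)
  refine Finset.card_le_card_of_injOn φ ?_ ?_
  · intro c hc
    have := hn c hc
    simp only [Finset.coe_filter, Finset.mem_univ, true_and, Set.mem_setOf_eq]
    omega
  · intro c hc c' hc' e
    exact h (hS hc) (hS hc') e

theorem rt_gconj {γ : G} (hγ : γ * γ = 1) (d : G) : rt (γ * d * γ) = rt d := by
  have h : γ⁻¹ = γ := inv_eq_of_mul_eq_one_left hγ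
  conv_lhs => rw [← h]
  have := rt_conj γ⁻¹ d
  rw [inv_inv] at this
  rw [← this]
  rw [h]

/-- the step: one feed -/
theorem step (K k : ℕ) (γ : G) (Q U : Finset (Cp G)) (hγ : γ * γ = 1)
    (hQ : GenPos (12 * K + 10) k γ Q) (d1 d2 : G) (hd : FeedPre (12 * K + 10) γ d1 d2)
    (hc : U.card + 12 * K + 2 < Q.card) :
    ∃ c2 ∈ Q, ∃ c3 ∈ Q, ∃ c4 ∈ Q, c2 ∉ U ∧ c3 ∉ U ∧ c4 ∉ U ∧ c2 ≠ c3 ∧ c2 ≠ c4 ∧ c3 ≠ c4 ∧
      FeedAd K γ c2 c3 c4 d1 d2 := by
  classical
  have hle : ∀ x : ℕ, (12 * K + 10) * x ≤ Fintype.card G → K * x ≤ Fintype.card G := by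
    intro x hx
    refine le_trans (Nat.mul_le_mul_right x ?_) hx
    omega
  obtain ⟨c2, hc2, hU2⟩ := (few_notMem Q U).exists (by omega)
  -- conditions depending on `g` only
  have hg_rt : ∀ φ : G → G, Function.Injective φ → K * rt (φ 1) ≤ Fintype.card G →
      Few Q K fun c => K * rt (φ c.g) ≤ Fintype.card G := by
    intro φ hφ h1
    by_cases hk : k = 3
    · refine few_all (fun c hc => ?_) K
      rw [hQ.k3 hk c hc]; exact h1
    · exact few_rt K (φ := fun c => φ c.g) (hφ.comp_injOn (hQ.i5 hk))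
  have hg_cj : ∀ (a : G) (φ : G → G), Function.Injective φ → K * cj a (φ 1) ≤ Fintype.card G →
      Few Q K fun c => K * cj a (φ c.g) ≤ Fintype.card G := by
    intro a φ hφ h1
    by_cases hk : k = 3
    · refine few_all (fun c hc => ?_) K
      rw [hQ.k3 hk c hc]; exact h1
    · exact few_cj K a (φ := fun c => φ c.g) (hφ.comp_injOn (hQ.i5 hk))
  have A1 : Few Q K fun c => K * rt (c.g * γ * d1 * γ) ≤ Fintype.card G := by
    refine hg_rt (fun g => g * γ * d1 * γ) (fun x y h => by simpa using h) ?_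
    simp only [one_mul]
    rw [rt_gconj hγ]; exact hle _ hd.n1.rt
  have A2 : Few Q K fun c => K * rt (d1⁻¹ * c.g⁻¹) ≤ Fintype.card G := by
    refine hg_rt (fun g => d1⁻¹ * g⁻¹) (fun x y h => by simpa using h) ?_
    simp only [inv_one, mul_one]
    rw [rt_inv]; exact hle _ hd.n1.rt
  have A5 : Few Q K fun c => K * rt (d2 * c.g⁻¹) ≤ Fintype.card G := by
    refine hg_rt (fun g => d2 * g⁻¹) (fun x y h => by simpa using h) ?_
    simp only [inv_one, mul_one]
    exact hle _ hd.n2.rt
  have A6 : Few Q K fun c => K * rt (c.g * γ * d2⁻¹ * γ) ≤ Fintype.card G := by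
    refine hg_rt (fun g => g * γ * d2⁻¹ * γ) (fun x y h => by simpa using h) ?_
    simp only [one_mul]
    rw [rt_gconj hγ, rt_inv]; exact hle _ hd.n2.rt
  have B1 : Few Q K fun c => K * cj d1 (c.g * γ) ≤ Fintype.card G := by
    refine hg_cj d1 (fun g => g * γ) (fun x y h => by simpa using h) ?_
    simp only [one_mul]
    exact hle _ hd.n1.cj
  have B9 : Few Q K fun c => K * cj d2 (γ * c.g⁻¹) ≤ Fintype.card G := by
    refine hg_cj d2 (fun g => γ * g⁻¹) (fun x y h => by simpa using h) ?_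
    simp only [inv_one, mul_one]
    exact hle _ hd.n2.cj
  -- conditions depending on `s`
  have hs : ∀ (a b : G), Few Q K fun c => K * cj a (c.s⁻¹ * b) ≤ Fintype.card G := by
    intro a b
    exact few_cj K a (φ := fun c => c.s⁻¹ * b) (fun x hx y hy h => hQ.i1 hx hy (by simpa using h))
  have h3 : ∀ (a b : G), Few Q K fun c => K * cj a (c.g * γ * c.r⁻¹ * b) ≤ Fintype.card G := by
    intro a b
    exact few_cj K a (φ := fun c => c.g * γ * c.r⁻¹ * b)
      (fun x hx y hy h => hQ.i3 hx hy (mul_right_cancel h))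
  have h4 : ∀ a : G, Few Q K fun c => K * cj a (c.g * γ * c.r⁻¹ * c.s) ≤ Fintype.card G :=
    fun a => few_cj K a (φ := fun c => c.g * γ * c.r⁻¹ * c.s) hQ.i4
  have hc3 := ((few_notMem Q (insert c2 U)).and (A1.and (A2.and (A5.and (A6.and (B1.and (B9.and
    ((hs d1 (c2.r * γ * c2.g⁻¹)).and ((h3 d1 (c2.r * γ * c2.g⁻¹)).and
    ((h4 d1).and ((h3 (d1 * d2) (c2.r * γ * c2.g⁻¹)).and ((h4 (d1 * d2)).and
      (h4 d2))))))))))))).exists (by
        have := card_insert_le c2 U
        omega)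
  obtain ⟨c3, hc3Q, hc3U, a1, a2, a5, a6, b1, b9, b2, b3, b4, b5, b6, b10⟩ := hc3
  have hc4 := ((few_notMem Q (insert c3 (insert c2 U))).and
    ((hs (d1 * d2) (c2.r * γ * c2.g⁻¹)).and ((hs (d1 * d2) c3.s).and ((hs d2 c3.s).and
      (hs d2 (c3.r * γ * c3.g⁻¹)))))).exists (by
        have := card_insert_le c2 U
        have := card_insert_le c3 (insert c2 U)
        omega)
  obtain ⟨c4, hc4Q, hc4U, b7, b8, b11, b12⟩ := hc4
  simp only [mem_insert, not_or] at hc3U hc4U
  refine ⟨c2, hc2, c3, hc3Q, c4, hc4Q, hU2, hc3U.2, hc4U.2.2, fun h => hc3U.1 h.symm,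
    fun h => hc4U.2.1 h.symm, fun h => hc4U.1 h.symm, ?_⟩
  refine ⟨hd.n1.ne, hd.n2.ne, hd.e3, a1, a2, hle _ hd.a3, hle _ hd.a4, a5, a6, b1, ?_, ?_, b4, ?_,
    b6, ?_, b8, b9, b10, b11, ?_⟩
  · simpa only [mul_assoc] using b2
  · simpa only [mul_assoc] using b3
  · simpa only [mul_assoc] using b5
  · simpa only [mul_assoc] using b7
  · simpa only [mul_assoc] using b12

theorem stmt_ASG : Stmt_ASG := by
  intro K
  refine ⟨12 * K + 10, ?_⟩
  intro G _ _ _ k γ Q hγ hQ fs
  induction fs with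
  | nil =>
    intro _ _
    exact ⟨[], rfl, by simp, by simp⟩
  | cons q fs ih =>
    intro hfs hc
    have hc' : (12 * K + 10) * (fs.length + 1) ≤ Q.card := by
      refine le_trans (Nat.mul_le_mul_left _ ?_) hc
      simp
    obtain ⟨as, h1, h2, h3⟩ := ih (fun q hq => hfs q (List.mem_cons_of_mem _ hq)) hc'
    have hlen : as.length = fs.length := by rw [← h1]; simp
    have hU : (as.flatMap fun a => [a.2.1, a.2.2.1, a.2.2.2]).toFinset.card ≤ 3 * fs.length := by
      refine (List.toFinset_card_le _).trans ?_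
      rw [List.length_flatMap]
      simp [hlen, mul_comm]
    obtain ⟨c2, m2, c3, m3, c4, m4, u2, u3, u4, e23, e24, e34, had⟩ :=
      step K k γ Q (as.flatMap fun a => [a.2.1, a.2.2.1, a.2.2.2]).toFinset hγ hQ q.1 q.2
        (hfs q (List.mem_cons_self)) (by
          have : (12 * K + 10) * (fs.length + 1 + 1) ≤ Q.card := by simpa using hc
          nlinarith)
    refine ⟨(q, c2, c3, c4) :: as, by simp [h1], ?_, ?_⟩
    · rw [List.flatMap_cons, List.nodup_append]
      refine ⟨by simp [e23, e24, e34], h2, ?_⟩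
      intro a ha b hb hab
      subst hab
      have hb' : a ∈ (as.flatMap fun a => [a.2.1, a.2.2.1, a.2.2.2]).toFinset :=
        List.mem_toFinset.2 hb
      simp only [List.mem_cons, List.not_mem_nil, or_false] at ha
      rcases ha with rfl | rfl | rfl
      · exact u2 hb'
      · exact u3 hb'
      · exact u4 hb'
    · intro a ha
      rcases List.mem_cons.1 ha with rfl | ha
      · exact ⟨m2, m3, m4, had⟩
      · exact h3 a ha

end Pool.OM.helper57
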