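import Pool.Agent.Work.MP_8d2cba_co_helper57.S

/-! MP_8d2cba_co: block RES, random reserve of vertices and pairs. -/

set_option autoImplicit false

namespace Pool.OM.helper57

open Finset

/-- lower bound for the probability of an event containing a cylinder -/
lemma E_ge {ι : Type} [Fintype ι] [DecidableEq ι] (q : ℝ) (hq0 : 0 < q) (hq : q ≤ 1 / 2)
    (T : Finset ι) (v : ι → Bool) (Q : (ι → Bool) → Prop) [DecidablePred Q]
    (hQ : ∀ b, (∀ i ∈ T, b i = v i) → Q b) (k : ℕ) (hk : T.card ≤ k) :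
    q ^ k ≤ ∑ b : ι → Bool, (∏ i, bern q (b i)) * (if Q b then 1 else 0) := by
  have h1 := prob_cyl (fun _ : ι => bern q) (fun _ => bern_sum q) T v
  have h2 : q ^ k ≤ ∏ i ∈ T, bern q (v i) := by
    calc q ^ k ≤ q ^ T.card := pow_le_pow_of_le_one hq0.le (by linarith) hk
      _ = ∏ i ∈ T, q := by rw [Finset.prod_const]
      _ ≤ ∏ i ∈ T, bern q (v i) := by
        refine Finset.prod_le_prod (fun i _ => hq0.le) fun i _ => ?_
        unfold bern; split_ifs <;> linarith
  rw [← h1] at h2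
  refine h2.trans (Finset.sum_le_sum fun b _ => ?_)
  refine mul_le_mul_of_nonneg_left ?_
    (Finset.prod_nonneg fun i _ => bern_nonneg hq0.le (by linarith) _)
  by_cases h : ∀ i ∈ T, b i = v i
  · rw [if_pos h, if_pos (hQ b h)]
  · rw [if_neg h]
    split_ifs <;> norm_num

section fam
variable {G : Type} [Group G] [Fintype G] [DecidableEq G] {Ω : Type} [Fintype Ω]

/-- the event that the system `ω` lies in the (unpruned) reserve -/
def Ev (γ : G) (pw vw : Ω → List G) (ω : Ω) (b : G ⊕ G → Bool) : Prop :=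
  CF γ (pw ω) (vw ω) ∧
    (∀ c ∈ pw ω, b (Sum.inr c) = true ∧ b (Sum.inr (c⁻¹ * γ)) = false) ∧
    ∀ v ∈ vw ω, b (Sum.inl v) = true

def Sp (γ : G) (pw vw : Ω → List G) (ω : Ω) : G ⊕ G → Prop
  | Sum.inl x => x ∈ vw ω
  | Sum.inr x => x ∈ pw ω ∨ γ * x⁻¹ ∈ pw ω

lemma mem_prs {γ x : G} {P : Multiset G} : x ∈ prs γ P ↔ ∃ a ∈ P, x = a ∨ x = a⁻¹ * γ := by
  simp only [prs, Multiset.mem_bind, pr, Multiset.insert_eq_cons, Multiset.mem_cons,
    Multiset.mem_singleton]

lemma prs_not_mem {γ : G} {l : List G} (h : (prs γ (l : Multiset G)).Nodup) {c : G} (hc : c ∈ l) :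
    c⁻¹ * γ ∉ l := by
  intro hc'
  rw [prs, Multiset.nodup_bind] at h
  obtain ⟨h1, h2⟩ := h
  by_cases he : c = c⁻¹ * γ
  · have := h1 c (by simpa using hc)
    rw [pr, ← he] at this
    simp at this
  · have : Std.Symm (fun a b : G => Disjoint (pr γ a) (pr γ b)) := ⟨fun a b hab => hab.symm⟩
    have hp : Multiset.Pairwise (fun a b : G => Disjoint (pr γ a) (pr γ b)) (l : Multiset G) := h2
    have := hp.forall (a := c) (by simpa using hc) (b := c⁻¹ * γ) (by simpa using hc') he
    rw [Multiset.disjoint_left] at this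
    exact this (a := c⁻¹ * γ) (by simp [pr]) (by simp [pr])

open Classical in
/-- normalised counting function -/
noncomputable def fF (γ : G) (pw vw : Ω → List G) (b : G ⊕ G → Bool) : ℝ :=
  ((univ.filter fun ω => Ev γ pw vw ω b).card : ℝ) / Fintype.card Ω

lemma card_or {X : Type} [Fintype X] (p q : X → Prop) [DecidablePred p] [DecidablePred q]
    [DecidablePred fun x => p x ∨ q x] :
    (univ.filter fun x => p x ∨ q x).card ≤ (univ.filter p).card + (univ.filter q).card := by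
  classical
  refine (Finset.card_le_card (t := univ.filter p ∪ univ.filter q) fun x hx => ?_).trans
    (Finset.card_union_le _ _)
  rw [Finset.mem_filter] at hx
  rw [Finset.mem_union, Finset.mem_filter, Finset.mem_filter]
  rcases hx.2 with h | h
  · exact Or.inl ⟨Finset.mem_univ _, h⟩
  · exact Or.inr ⟨Finset.mem_univ _, h⟩

lemma fF_bd (γ : G) (pw vw : Ω → List G) (Lp Lv L : ℕ) (hLp : Lp ≤ L) (hLv : Lv ≤ L)
    (hn : 0 < Fintype.card G)
    (hp : ∀ c, Fintype.card G * (univ.filter fun ω => c ∈ pw ω).card ≤ Lp * Fintype.card Ω)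
    (hv : ∀ v, Fintype.card G * (univ.filter fun ω => v ∈ vw ω).card ≤ Lv * Fintype.card Ω)
    (i : G ⊕ G) (b b' : G ⊕ G → Bool) (h : ∀ j, j ≠ i → b j = b' j) :
    |fF γ pw vw b - fF γ pw vw b'| ≤ 2 * (L + 1) / Fintype.card G := by
  classical
  have hnR : (0 : ℝ) < Fintype.card G := by exact_mod_cast hn
  rcases Nat.eq_zero_or_pos (Fintype.card Ω) with h0 | h0
  · unfold fF
    rw [h0]
    simp only [Nat.cast_zero, div_zero, sub_self, abs_zero]
    positivity
  · have hΩ : (0 : ℝ) < Fintype.card Ω := by exact_mod_cast h0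
    unfold fF
    rw [← sub_div, abs_div, abs_of_pos hΩ, div_le_div_iff₀ hΩ hnR]
    have h1 := bd_count (fun ω b => Ev γ pw vw ω b) (fun ω j => Sp γ pw vw ω j) (by
      rintro ω b b' h ⟨h1, h2, h3⟩
      refine ⟨h1, fun c hc => ⟨?_, ?_⟩, fun v hv => ?_⟩
      · rw [← h (Sum.inr c) (Or.inl hc)]; exact (h2 c hc).1
      · rw [← h (Sum.inr (c⁻¹ * γ)) (Or.inr (by simpa using hc))]; exact (h2 c hc).2
      · rw [← h (Sum.inl v) hv]; exact h3 v hv) i b b' h
    have h2 : (Fintype.card G : ℝ) * (univ.filter fun ω => Sp γ pw vw ω i).card ≤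
        2 * L * Fintype.card Ω := by
      rcases i with x | x
      · have e : (univ.filter fun ω => Sp γ pw vw ω (Sum.inl x)) =
            univ.filter fun ω => x ∈ vw ω := Finset.filter_congr fun ω _ => Iff.rfl
        rw [e]
        have := (hv x).trans (Nat.mul_le_mul_right _ hLv)
        have h3 : (Fintype.card G : ℝ) * (univ.filter fun ω => x ∈ vw ω).card ≤
            L * Fintype.card Ω := by exact_mod_cast this
        have h4 : (0 : ℝ) ≤ L * Fintype.card Ω := by positivity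
        linarith
      · have e : (univ.filter fun ω => Sp γ pw vw ω (Sum.inr x)) =
            univ.filter fun ω => x ∈ pw ω ∨ γ * x⁻¹ ∈ pw ω :=
          Finset.filter_congr fun ω _ => Iff.rfl
        rw [e]
        have h3 := card_or (fun ω => x ∈ pw ω) (fun ω => γ * x⁻¹ ∈ pw ω)
        have h4 := (hp x).trans (Nat.mul_le_mul_right _ hLp)
        have h5 := (hp (γ * x⁻¹)).trans (Nat.mul_le_mul_right _ hLp)
        have h6 : Fintype.card G * (univ.filter fun ω => x ∈ pw ω ∨ γ * x⁻¹ ∈ pw ω).card ≤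
            2 * L * Fintype.card Ω := by
          calc Fintype.card G * (univ.filter fun ω => x ∈ pw ω ∨ γ * x⁻¹ ∈ pw ω).card
              ≤ Fintype.card G * ((univ.filter fun ω => x ∈ pw ω).card +
                (univ.filter fun ω => γ * x⁻¹ ∈ pw ω).card) := Nat.mul_le_mul_left _ h3
            _ ≤ 2 * L * Fintype.card Ω := by rw [Nat.mul_add]; linarith
        exact_mod_cast h6
    have h3 := mul_le_mul_of_nonneg_right h1 hnR.le
    have h4 : (0 : ℝ) ≤ Fintype.card Ω := hΩ.le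
    nlinarith

lemma fF_E (γ : G) (pw vw : Ω → List G) (A : ℕ) (q : ℝ) (hq0 : 0 < q) (hq : q ≤ 1 / 2)
    (hA : ∀ ω, (pw ω).length ≤ A ∧ (vw ω).length ≤ A)
    [DecidablePred fun ω => CF γ (pw ω) (vw ω)]
    (hcf : Fintype.card Ω ≤ 2 * (univ.filter fun ω => CF γ (pw ω) (vw ω)).card)
    (h0 : 0 < Fintype.card Ω) :
    q ^ (3 * A) / 2 ≤ ∑ b : G ⊕ G → Bool, (∏ i, bern q (b i)) * fF γ pw vw b := by
  classical
  have hΩ : (0 : ℝ) < Fintype.card Ω := by exact_mod_cast h0
  have h1 : ∑ b : G ⊕ G → Bool, (∏ i, bern q (b i)) * fF γ pw vw b =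
      (∑ ω, ∑ b : G ⊕ G → Bool, (∏ i, bern q (b i)) * (if Ev γ pw vw ω b then 1 else 0)) /
        Fintype.card Ω := by
    rw [← exp_count (fun _ : G ⊕ G => bern q) (fun ω b => Ev γ pw vw ω b), Finset.sum_div]
    refine Finset.sum_congr rfl fun b _ => ?_
    unfold fF
    ring
  rw [h1, le_div_iff₀ hΩ]
  have h2 : ∀ ω, (if CF γ (pw ω) (vw ω) then q ^ (3 * A) else 0) ≤
      ∑ b : G ⊕ G → Bool, (∏ i, bern q (b i)) * (if Ev γ pw vw ω b then (1 : ℝ) else 0) := by
    intro ω
    split_ifs with hω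
    · refine E_ge q hq0 hq ((vw ω).toFinset.image Sum.inl ∪
        (prs γ (pw ω : Multiset G)).toFinset.image Sum.inr)
        (fun j => match j with
          | Sum.inl _ => true
          | Sum.inr x => decide (x ∈ pw ω)) _ ?_ _ ?_
      · intro b hb
        refine ⟨hω, fun c hc => ⟨?_, ?_⟩, fun v hv => ?_⟩
        · rw [hb (Sum.inr c)]
          · simpa using hc
          · refine Finset.mem_union_right _ (Finset.mem_image_of_mem _ ?_)
            rw [Multiset.mem_toFinset, mem_prs]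
            exact ⟨c, by simpa using hc, Or.inl rfl⟩
        · rw [hb (Sum.inr (c⁻¹ * γ))]
          · simpa using prs_not_mem hω.1 hc
          · refine Finset.mem_union_right _ (Finset.mem_image_of_mem _ ?_)
            rw [Multiset.mem_toFinset, mem_prs]
            exact ⟨c, by simpa using hc, Or.inr rfl⟩
        · rw [hb (Sum.inl v)]
          refine Finset.mem_union_left _ (Finset.mem_image_of_mem _ ?_)
          rw [List.mem_toFinset]; exact hv
      · refine (Finset.card_union_le _ _).trans ?_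
        have e1 := (Finset.card_image_le (s := (vw ω).toFinset) (f := (Sum.inl : G → G ⊕ G))).trans
          ((List.toFinset_card_le (vw ω)).trans (hA ω).2)
        have e2 := (Finset.card_image_le (s := (prs γ (pw ω : Multiset G)).toFinset)
          (f := (Sum.inr : G → G ⊕ G))).trans (Multiset.toFinset_card_le _)
        have e3 : Multiset.card (prs γ (pw ω : Multiset G)) = 2 * (pw ω).length := by
          rw [prs, Multiset.card_bind]
          have : (Multiset.card ∘ pr γ) = fun _ => 2 := by funext a; simp [pr]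
          rw [this]
          simp [mul_comm]
        rw [e3] at e2
        have := (hA ω).1
        omega
    · refine Finset.sum_nonneg fun b _ => mul_nonneg
        (Finset.prod_nonneg fun i _ => bern_nonneg hq0.le (by linarith) _) ?_
      split_ifs <;> norm_num
  have h3 := Finset.sum_le_sum fun ω (_ : ω ∈ (univ : Finset Ω)) => h2 ω
  refine le_trans ?_ h3
  rw [← Finset.sum_filter, Finset.sum_const, nsmul_eq_mul]
  have h4 : (Fintype.card Ω : ℝ) ≤ 2 * (univ.filter fun ω => CF γ (pw ω) (vw ω)).card := by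
    have := hcf
    exact_mod_cast (by convert this : Fintype.card Ω ≤
      2 * (univ.filter fun ω => CF γ (pw ω) (vw ω)).card)
  have h5 : (0 : ℝ) < q ^ (3 * A) := by positivity
  nlinarith

/-- the reserve -/
def Rb (b : G ⊕ G → Bool) (XV : Finset G) : Finset G :=
  univ.filter fun x => b (Sum.inl x) = true ∧ x ∉ XV

def Pb (γ : G) (b : G ⊕ G → Bool) (XC : Finset G) : Finset G :=
  univ.filter fun a => b (Sum.inr a) = true ∧ b (Sum.inr (a⁻¹ * γ)) = false ∧ a ∉ XC ∧
    a⁻¹ * γ ∉ XC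

lemma card_mem_le {X : Type} [Fintype X] [DecidableEq X] (l : X → List G) (W : Finset G) (B n : ℕ)
    (h : ∀ c, n * (univ.filter fun ω => c ∈ l ω).card ≤ B)
    (g : G → G) [DecidablePred fun ω => ∃ c ∈ W, g c ∈ l ω] :
    n * (univ.filter fun ω => ∃ c ∈ W, g c ∈ l ω).card ≤ W.card * B := by
  have h1 : (univ.filter fun ω => ∃ c ∈ W, g c ∈ l ω) ⊆
      W.biUnion fun c => univ.filter fun ω => g c ∈ l ω := by
    intro ω hω
    simp only [Finset.mem_filter, Finset.mem_univ, true_and, Finset.mem_biUnion] at hω ⊢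
    exact hω
  calc n * (univ.filter fun ω => ∃ c ∈ W, g c ∈ l ω).card
      ≤ n * ∑ c ∈ W, (univ.filter fun ω => g c ∈ l ω).card :=
        Nat.mul_le_mul_left _ ((Finset.card_le_card h1).trans Finset.card_biUnion_le)
    _ = ∑ c ∈ W, n * (univ.filter fun ω => g c ∈ l ω).card := Finset.mul_sum _ _ _
    _ ≤ ∑ c ∈ W, B := Finset.sum_le_sum fun c _ => h (g c)
    _ = W.card * B := by rw [Finset.sum_const, smul_eq_mul]

lemma fF_final (γ : G) (pw vw : Ω → List G) (Lp Lv K₁ : ℕ) (XV XC : Finset G)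
    (b : G ⊕ G → Bool) (hn : 0 < Fintype.card G)
    (hp : ∀ c, Fintype.card G * (univ.filter fun ω => c ∈ pw ω).card ≤ Lp * Fintype.card Ω)
    (hv : ∀ v, Fintype.card G * (univ.filter fun ω => v ∈ vw ω).card ≤ Lv * Fintype.card Ω)
    (hXC : K₁ * Lp * XC.card ≤ Fintype.card G) (hXV : K₁ * Lv * XV.card ≤ Fintype.card G)
    [DecidablePred fun ω => CF γ (pw ω) (vw ω) ∧ (∀ c ∈ pw ω, c ∈ Pb γ b XC) ∧
      ∀ v ∈ vw ω, v ∈ Rb b XV] [DecidablePred fun ω => Ev γ pw vw ω b] :
    K₁ * (univ.filter fun ω => Ev γ pw vw ω b).card ≤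
      K₁ * (univ.filter fun ω => CF γ (pw ω) (vw ω) ∧ (∀ c ∈ pw ω, c ∈ Pb γ b XC) ∧
        ∀ v ∈ vw ω, v ∈ Rb b XV).card + 3 * Fintype.card Ω := by
  classical
  set G0 := univ.filter fun ω => CF γ (pw ω) (vw ω) ∧ (∀ c ∈ pw ω, c ∈ Pb γ b XC) ∧
        ∀ v ∈ vw ω, v ∈ Rb b XV with hG0
  set B1 := univ.filter fun ω => ∃ c ∈ XC, id c ∈ pw ω with hB1
  set B2 := univ.filter fun ω => ∃ c ∈ XC, (γ * c⁻¹) ∈ pw ω with hB2
  set B3 := univ.filter fun ω => ∃ c ∈ XV, id c ∈ vw ω with hB3
  have hsub : (univ.filter fun ω => Ev γ pw vw ω b) ⊆ G0 ∪ (B1 ∪ (B2 ∪ B3)) := by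
    intro ω hω
    rw [Finset.mem_filter] at hω
    obtain ⟨-, h1, h2, h3⟩ := hω
    by_contra hno
    simp only [Finset.mem_union, not_or] at hno
    obtain ⟨hn0, hn1, hn2, hn3⟩ := hno
    apply hn0
    rw [hG0, Finset.mem_filter]
    refine ⟨Finset.mem_univ _, h1, fun c hc => ?_, fun v hv => ?_⟩
    · rw [Pb, Finset.mem_filter]
      refine ⟨Finset.mem_univ _, (h2 c hc).1, (h2 c hc).2, fun hX => hn1 ?_, fun hX => hn2 ?_⟩
      · rw [hB1, Finset.mem_filter]; exact ⟨Finset.mem_univ _, c, hX, hc⟩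
      · rw [hB2, Finset.mem_filter]
        refine ⟨Finset.mem_univ _, c⁻¹ * γ, hX, ?_⟩
        have : γ * (c⁻¹ * γ)⁻¹ = c := by group
        rw [this]; exact hc
    · rw [Rb, Finset.mem_filter]
      refine ⟨Finset.mem_univ _, h3 v hv, fun hX => hn3 ?_⟩
      rw [hB3, Finset.mem_filter]; exact ⟨Finset.mem_univ _, v, hX, hv⟩
  have hc := (Finset.card_le_card hsub).trans ((Finset.card_union_le _ _).trans
    (Nat.add_le_add_left ((Finset.card_union_le _ _).trans
      (Nat.add_le_add_left (Finset.card_union_le _ _) _)) _))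
  have k1 : Fintype.card G * (K₁ * B1.card) ≤ Fintype.card G * Fintype.card Ω := by
    have := card_mem_le pw XC (Lp * Fintype.card Ω) (Fintype.card G) hp id
    calc Fintype.card G * (K₁ * B1.card) = K₁ * (Fintype.card G * B1.card) := by ring
      _ ≤ K₁ * (XC.card * (Lp * Fintype.card Ω)) := Nat.mul_le_mul_left _ this
      _ = (K₁ * Lp * XC.card) * Fintype.card Ω := by ring
      _ ≤ _ := Nat.mul_le_mul_right _ hXC
  have k2 : Fintype.card G * (K₁ * B2.card) ≤ Fintype.card G * Fintype.card Ω := by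
    have := card_mem_le pw XC (Lp * Fintype.card Ω) (Fintype.card G) hp (fun c => γ * c⁻¹)
    calc Fintype.card G * (K₁ * B2.card) = K₁ * (Fintype.card G * B2.card) := by ring
      _ ≤ K₁ * (XC.card * (Lp * Fintype.card Ω)) := Nat.mul_le_mul_left _ this
      _ = (K₁ * Lp * XC.card) * Fintype.card Ω := by ring
      _ ≤ _ := Nat.mul_le_mul_right _ hXC
  have k3 : Fintype.card G * (K₁ * B3.card) ≤ Fintype.card G * Fintype.card Ω := by
    have := card_mem_le vw XV (Lv * Fintype.card Ω) (Fintype.card G) hv id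
    calc Fintype.card G * (K₁ * B3.card) = K₁ * (Fintype.card G * B3.card) := by ring
      _ ≤ K₁ * (XV.card * (Lv * Fintype.card Ω)) := Nat.mul_le_mul_left _ this
      _ = (K₁ * Lv * XV.card) * Fintype.card Ω := by ring
      _ ≤ _ := Nat.mul_le_mul_right _ hXV
  have k1' := Nat.le_of_mul_le_mul_left k1 hn
  have k2' := Nat.le_of_mul_le_mul_left k2 hn
  have k3' := Nat.le_of_mul_le_mul_left k3 hn
  have hc2 := Nat.mul_le_mul_left K₁ hc
  rw [Nat.mul_add, Nat.mul_add, Nat.mul_add] at hc2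
  linarith

end fam

section sizes
variable {G : Type} [Group G] [Fintype G] [DecidableEq G]

/-- normalised sizes -/
noncomputable def gS (γ : G) : Fin 3 → (G ⊕ G → Bool) → ℝ
  | 0, b => ((univ.filter fun x : G => b (Sum.inl x) = true).card : ℝ) / Fintype.card G
  | 1, b => ((univ.filter fun x : G => b (Sum.inr x) = true).card : ℝ) / Fintype.card G
  | 2, b => ((univ.filter fun x : G => b (Sum.inr x) = true ∧
      b (Sum.inr (x⁻¹ * γ)) = false).card : ℝ) / Fintype.card G

lemma gS_bd (γ : G) (hn : 0 < Fintype.card G) (k : Fin 3) (i : G ⊕ G) (b b' : G ⊕ G → Bool)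
    (h : ∀ j, j ≠ i → b j = b' j) : |gS γ k b - gS γ k b'| ≤ 2 / Fintype.card G := by
  have hnR : (0 : ℝ) < Fintype.card G := by exact_mod_cast hn
  have key : ∀ (Q : G → (G ⊕ G → Bool) → Prop) [∀ ω, DecidablePred fun x => Q x ω]
      (S : G → G ⊕ G → Prop) [∀ i, DecidablePred fun x => S x i],
      (∀ x (ω ω' : G ⊕ G → Bool), (∀ j, S x j → ω j = ω' j) → (Q x ω → Q x ω')) →
      (univ.filter fun x => S x i).card ≤ 2 →
      |((univ.filter fun x => Q x b).card : ℝ) / Fintype.card G -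
        ((univ.filter fun x => Q x b').card : ℝ) / Fintype.card G| ≤ 2 / Fintype.card G := by
    intro Q _ S _ hQ hS
    rw [← sub_div, abs_div, abs_of_pos hnR]
    refine div_le_div_of_nonneg_right ?_ hnR.le
    exact (bd_count Q S hQ i b b' h).trans (by exact_mod_cast hS)
  have hone : ∀ (g : G → G ⊕ G), Function.Injective g →
      (univ.filter fun x => i = g x).card ≤ 1 := by
    intro g hg
    rw [Finset.card_le_one]
    intro x hx y hy
    simp only [Finset.mem_filter, Finset.mem_univ, true_and] at hx hy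
    exact hg (hx.symm.trans hy)
  fin_cases k
  · refine key (fun x b => b (Sum.inl x) = true) (fun x j => j = Sum.inl x) ?_ ?_
    · intro x ω ω' h h1
      rw [← h _ rfl]; exact h1
    · exact (hone Sum.inl Sum.inl_injective).trans (by norm_num)
  · refine key (fun x b => b (Sum.inr x) = true) (fun x j => j = Sum.inr x) ?_ ?_
    · intro x ω ω' h h1
      rw [← h _ rfl]; exact h1
    · exact (hone Sum.inr Sum.inr_injective).trans (by norm_num)
  · refine key (fun x b => b (Sum.inr x) = true ∧ b (Sum.inr (x⁻¹ * γ)) = false)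
      (fun x j => j = Sum.inr x ∨ j = Sum.inr (x⁻¹ * γ)) ?_ ?_
    · rintro x ω ω' h ⟨h1, h2⟩
      refine ⟨?_, ?_⟩
      · rw [← h _ (Or.inl rfl)]; exact h1
      · rw [← h _ (Or.inr rfl)]; exact h2
    · refine (card_or _ _).trans ?_
      have h1 := hone Sum.inr Sum.inr_injective
      have h2 := hone (fun x => Sum.inr (x⁻¹ * γ)) (by
        intro x y hxy
        simpa using hxy)
      omega

lemma gS_E0 (γ : G) (q : ℝ) (hn : 0 < Fintype.card G) :
    ∑ b : G ⊕ G → Bool, (∏ i, bern q (b i)) * gS γ 0 b = q := by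
  have hnR : (0 : ℝ) < Fintype.card G := by exact_mod_cast hn
  have h1 : ∀ x : G, ∑ b : G ⊕ G → Bool, (∏ i, bern q (b i)) *
      (if b (Sum.inl x) = true then (1 : ℝ) else 0) = q := by
    intro x
    have := prob_cyl (fun _ : G ⊕ G => bern q) (fun _ => bern_sum q) {Sum.inl x} (fun _ => true)
    simpa [bern] using this
  have h2 := exp_count (fun _ : G ⊕ G => bern q)
    (fun (x : G) (b : G ⊕ G → Bool) => b (Sum.inl x) = true)
  rw [Finset.sum_congr rfl fun x _ => h1 x, Finset.sum_const, Finset.card_univ,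
    nsmul_eq_mul] at h2
  calc ∑ b : G ⊕ G → Bool, (∏ i, bern q (b i)) * gS γ 0 b
      = (∑ b : G ⊕ G → Bool, (∏ i, bern q (b i)) *
        ((univ.filter fun x : G => b (Sum.inl x) = true).card : ℝ)) / Fintype.card G := by
        rw [Finset.sum_div]
        refine Finset.sum_congr rfl fun b _ => ?_
        rw [mul_div_assoc]; rfl
    _ = q := by rw [h2]; field_simp

lemma gS_E1 (γ : G) (q : ℝ) (hn : 0 < Fintype.card G) :
    ∑ b : G ⊕ G → Bool, (∏ i, bern q (b i)) * gS γ 1 b = q := by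
  have hnR : (0 : ℝ) < Fintype.card G := by exact_mod_cast hn
  have h1 : ∀ x : G, ∑ b : G ⊕ G → Bool, (∏ i, bern q (b i)) *
      (if b (Sum.inr x) = true then (1 : ℝ) else 0) = q := by
    intro x
    have := prob_cyl (fun _ : G ⊕ G => bern q) (fun _ => bern_sum q) {Sum.inr x} (fun _ => true)
    simpa [bern] using this
  have h2 := exp_count (fun _ : G ⊕ G => bern q)
    (fun (x : G) (b : G ⊕ G → Bool) => b (Sum.inr x) = true)
  rw [Finset.sum_congr rfl fun x _ => h1 x, Finset.sum_const, Finset.card_univ,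
    nsmul_eq_mul] at h2
  calc ∑ b : G ⊕ G → Bool, (∏ i, bern q (b i)) * gS γ 1 b
      = (∑ b : G ⊕ G → Bool, (∏ i, bern q (b i)) *
        ((univ.filter fun x : G => b (Sum.inr x) = true).card : ℝ)) / Fintype.card G := by
        rw [Finset.sum_div]
        refine Finset.sum_congr rfl fun b _ => ?_
        rw [mul_div_assoc]; rfl
    _ = q := by rw [h2]; field_simp

lemma gS_E2 (γ : G) (q : ℝ) (hq0 : 0 < q) (hq : q ≤ 1 / 2) (hn : 0 < Fintype.card G)
    (hrt : 2 * rt γ ≤ Fintype.card G) :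
    q ^ 2 / 2 ≤ ∑ b : G ⊕ G → Bool, (∏ i, bern q (b i)) * gS γ 2 b := by
  have hnR : (0 : ℝ) < Fintype.card G := by exact_mod_cast hn
  have h1 : ∀ x : G, (if x * x = γ then 0 else q ^ 2) ≤
      ∑ b : G ⊕ G → Bool, (∏ i, bern q (b i)) *
      (if b (Sum.inr x) = true ∧ b (Sum.inr (x⁻¹ * γ)) = false then (1 : ℝ) else 0) := by
    intro x
    split_ifs with hx
    · refine Finset.sum_nonneg fun b _ => mul_nonneg
        (Finset.prod_nonneg fun i _ => bern_nonneg hq0.le (by linarith) _) ?_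
      split_ifs <;> norm_num
    · have hne : (Sum.inr (x⁻¹ * γ) : G ⊕ G) ≠ Sum.inr x := by
        intro h
        apply hx
        have := Sum.inr_injective h
        rw [inv_mul_eq_iff_eq_mul] at this
        exact this.symm
      refine E_ge q hq0 hq {Sum.inr x, Sum.inr (x⁻¹ * γ)} (fun j => decide (j = Sum.inr x)) _ ?_ 2
        Finset.card_le_two
      intro b hb
      constructor
      · rw [hb (Sum.inr x) (by simp)]; simp
      · rw [hb (Sum.inr (x⁻¹ * γ)) (by simp)]; simpa using fun h => hne (by rw [h])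
  have h2 := exp_count (fun _ : G ⊕ G => bern q)
    (fun (x : G) (b : G ⊕ G → Bool) => b (Sum.inr x) = true ∧ b (Sum.inr (x⁻¹ * γ)) = false)
  have h3 := Finset.sum_le_sum fun x (_ : x ∈ (univ : Finset G)) => h1 x
  rw [← h2, Finset.sum_ite, Finset.sum_const_zero, zero_add, Finset.sum_const,
    nsmul_eq_mul] at h3
  have h4 : (univ.filter fun x : G => ¬ x * x = γ).card + rt γ = Fintype.card G := by
    rw [rt, add_comm]
    exact Finset.card_filter_add_card_filter_not (s := (univ : Finset G)) (fun x => x * x = γ)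
  have h5 : (Fintype.card G : ℝ) ≤ 2 * (univ.filter fun x : G => ¬ x * x = γ).card := by
    have : Fintype.card G ≤ 2 * (univ.filter fun x : G => ¬ x * x = γ).card := by omega
    exact_mod_cast this
  calc q ^ 2 / 2 = (Fintype.card G : ℝ) / 2 * q ^ 2 / Fintype.card G := by field_simp
    _ ≤ (univ.filter fun x : G => ¬ x * x = γ).card * q ^ 2 / Fintype.card G := by
        refine div_le_div_of_nonneg_right ?_ hnR.le
        exact mul_le_mul_of_nonneg_right (by linarith) (sq_nonneg q)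
    _ ≤ (∑ b : G ⊕ G → Bool, (∏ i, bern q (b i)) *
        ((univ.filter fun x : G => b (Sum.inr x) = true ∧
          b (Sum.inr (x⁻¹ * γ)) = false).card : ℝ)) / Fintype.card G :=
        div_le_div_of_nonneg_right h3 hnR.le
    _ = ∑ b : G ⊕ G → Bool, (∏ i, bern q (b i)) * gS γ 2 b := by
        rw [Finset.sum_div]
        refine Finset.sum_congr rfl fun b _ => ?_
        rw [mul_div_assoc]; rfl

lemma Pb_nodup (γ : G) (b : G ⊕ G → Bool) (XC : Finset G) : (prs γ (Pb γ b XC).val).Nodup := by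
  rw [prs, Multiset.nodup_bind]
  have hP : ∀ a ∈ (Pb γ b XC).val, b (Sum.inr a) = true ∧ b (Sum.inr (a⁻¹ * γ)) = false := by
    intro a ha
    have : a ∈ Pb γ b XC := ha
    rw [Pb, Finset.mem_filter] at this
    exact ⟨this.2.1, this.2.2.1⟩
  constructor
  · intro a ha
    obtain ⟨h1, h2⟩ := hP a ha
    have : a ≠ a⁻¹ * γ := by
      intro h
      rw [← h, h1] at h2
      exact Bool.noConfusion h2
    simpa [pr] using this
  · refine Multiset.Nodup.pairwise ?_ (Pb γ b XC).nodup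
    intro a ha a' ha' hne
    obtain ⟨h1, h2⟩ := hP a ha
    obtain ⟨h1', h2'⟩ := hP a' ha'
    show Disjoint (pr γ a) (pr γ a')
    rw [Multiset.disjoint_left]
    intro x hx hx'
    simp only [pr, Multiset.insert_eq_cons, Multiset.mem_cons, Multiset.mem_singleton] at hx hx'
    rcases hx with rfl | rfl <;> rcases hx' with h | h
    · exact hne h
    · rw [h, h2'] at h1; exact Bool.noConfusion h1
    · rw [h, h1'] at h2; exact Bool.noConfusion h2
    · exact hne (inv_injective (mul_right_cancel h))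

end sizes

/-- all random functions of the block RES -/
noncomputable def allF {G : Type} [Group G] [Fintype G] [DecidableEq G] (γ : G)
    (fs : List (Fam G)) : (Σ i : Fin fs.length, (fs.get i).P) ⊕ Fin 3 → (G ⊕ G → Bool) → ℝ
  | Sum.inl ⟨i, π⟩, b =>
      letI := (fs.get i).fΩ
      fF γ ((fs.get i).pw π) ((fs.get i).vw π) b
  | Sum.inr k, b => gS γ k b

theorem stmt_RES : Stmt_RES := by
  intro m A K₀
  set q : ℝ := 1 / (2 * (K₀ + 1)) with hqdef
  have hK0 : (0 : ℝ) ≤ K₀ := Nat.cast_nonneg _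
  have hq0 : 0 < q := by positivity
  have hq : q ≤ 1 / 2 := by
    rw [hqdef]
    apply one_div_le_one_div_of_le (by norm_num)
    linarith
  have hKq : K₀ * (2 * q) ≤ 1 := by
    rw [hqdef]
    have : (K₀ : ℝ) * (2 * (1 / (2 * (K₀ + 1)))) = K₀ / (K₀ + 1) := by field_simp
    rw [this, div_le_one (by linarith)]
    linarith
  set p₀ : ℝ := q ^ (3 * A + 2) with hp₀
  have hp0 : 0 < p₀ := by positivity
  have hp2 : p₀ ≤ q ^ 2 := pow_le_pow_of_le_one hq0.le (by linarith) (by omega)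
  have hp3 : p₀ ≤ q ^ (3 * A) := pow_le_pow_of_le_one hq0.le (by linarith) (by omega)
  have hq2 : q ^ 2 ≤ q / 2 := by nlinarith
  obtain ⟨K₁, hK₁⟩ := exists_nat_ge (24 / p₀)
  have hK1 : 24 ≤ K₁ * p₀ := by rwa [div_le_iff₀ hp0] at hK₁
  refine ⟨K₁, fun L => ?_⟩
  obtain ⟨N, hN⟩ := exp_small m (2 * (A + 3)) ((p₀ / 4) ^ 2 / (16 * (L + 1) ^ 2)) (1 / 2)
    (by positivity) (by norm_num)
  refine ⟨N + 1, ?_⟩
  intro G _ _ _ γ hG hγ hrt XV XC fs hfs hX hF
  classical
  set n := Fintype.card G with hn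
  have hn1 : 1 ≤ n := by omega
  have hn0 : 0 < n := hn1
  have hnR : (1 : ℝ) ≤ n := by exact_mod_cast hn1
  have hnpos : (0 : ℝ) < n := by linarith
  letI instP : ∀ i : Fin fs.length, Fintype (fs.get i).P := fun i => (fs.get i).fP
  have hget : ∀ i : Fin fs.length, fs.get i ∈ fs := fun i => List.get_mem fs i
  have hcardJ : (Fintype.card ((Σ i : Fin fs.length, (fs.get i).P) ⊕ Fin 3) : ℝ) ≤
      (A + 3) * (n : ℝ) ^ m := by
    rw [Fintype.card_sum, Fintype.card_sigma, Fintype.card_fin]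
    have h1 : ∑ i : Fin fs.length, Fintype.card (fs.get i).P ≤ A * n ^ m := by
      calc ∑ i : Fin fs.length, Fintype.card (fs.get i).P ≤ ∑ i : Fin fs.length, n ^ m :=
            Finset.sum_le_sum fun i _ => (hF _ (hget i)).1
        _ = fs.length * n ^ m := by simp
        _ ≤ A * n ^ m := Nat.mul_le_mul_right _ hfs
    have h2 : (1 : ℝ) ≤ (n : ℝ) ^ m := one_le_pow₀ hnR
    have h3 : ((∑ i : Fin fs.length, Fintype.card (fs.get i).P : ℕ) : ℝ) ≤ A * (n : ℝ) ^ m := by
      exact_mod_cast h1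
    push_cast at h3 ⊢
    linarith
  have hLR : (0 : ℝ) ≤ L := Nat.cast_nonneg _
  obtain ⟨b, -, hb, -⟩ := stmt_MCD2 (G ⊕ G) Bool ((Σ i : Fin fs.length, (fs.get i).P) ⊕ Fin 3)
    (fun _ => bern q) (allF γ fs)
    (fun _ _ => 2 * (L + 1) / n) (fun _ => 8 * (L + 1) ^ 2 / n) (fun _ => p₀ / 4)
    (fun _ b => bern_nonneg hq0.le (by linarith) b) (fun _ => bern_sum q)
    (by
      rintro (⟨i, π⟩ | k) j b b' h
      · letI := (fs.get i).fΩ
        obtain ⟨h1, h2, h3, h4, h5, h6, h7, h8⟩ := hF _ (hget i)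
        exact fF_bd γ _ _ _ _ L h5 h6 hn0 (h3 π) (h4 π) j b b' h
      · refine (gS_bd γ hn0 k j b b' h).trans ?_
        refine div_le_div_of_nonneg_right ?_ hnpos.le
        linarith)
    (fun j => by
      rw [Finset.sum_const, Finset.card_univ, nsmul_eq_mul, Fintype.card_sum, ← hn]
      apply le_of_eq; push_cast; field_simp; ring)
    (fun _ => by positivity) (fun _ => by positivity)
    (by
      rw [Finset.sum_const, Finset.card_univ, nsmul_eq_mul]
      have e : -(p₀ / 4) ^ 2 / (2 * (8 * ((L : ℝ) + 1) ^ 2 / n)) =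
          -((p₀ / 4) ^ 2 / (16 * (L + 1) ^ 2) * n) := by
        field_simp; ring
      rw [e]
      refine lt_of_le_of_lt ?_ (hN n (by omega))
      rw [← mul_assoc]
      refine mul_le_mul_of_nonneg_right ?_ (Real.exp_pos _).le
      nlinarith [hcardJ])
    (fun _ => 0) (fun _ => le_rfl)
  have hb0 := hb (Sum.inr 0)
  have hb1 := hb (Sum.inr 1)
  have hb2 := hb (Sum.inr 2)
  have e0 : ∑ b : G ⊕ G → Bool, (∏ i, bern q (b i)) * allF γ fs (Sum.inr 0) b = q :=
    gS_E0 γ q hn0
  have e1 : ∑ b : G ⊕ G → Bool, (∏ i, bern q (b i)) * allF γ fs (Sum.inr 1) b = q :=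
    gS_E1 γ q hn0
  have hrt2 : 2 * rt γ ≤ Fintype.card G := by
    have h24 : 24 ≤ K₁ := by
      have h1 : (24 : ℝ) ≤ K₁ := by
        have : p₀ ≤ 1 := hp2.trans (hq2.trans (by linarith))
        have h0 : (0 : ℝ) ≤ K₁ := Nat.cast_nonneg _
        nlinarith
      exact_mod_cast h1
    exact (Nat.mul_le_mul_right _ (by omega)).trans hrt
  have e2 : q ^ 2 / 2 ≤ ∑ b : G ⊕ G → Bool, (∏ i, bern q (b i)) * allF γ fs (Sum.inr 2) b :=
    gS_E2 γ q hq0 hq hn0 hrt2
  rw [e0] at hb0
  rw [e1] at hb1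
  -- sizes
  set cV : ℕ := (univ.filter fun x : G => b (Sum.inl x) = true).card with hcV
  set cP : ℕ := (univ.filter fun x : G => b (Sum.inr x) = true).card with hcP
  set cQ : ℕ := (univ.filter fun x : G => b (Sum.inr x) = true ∧
      b (Sum.inr (x⁻¹ * γ)) = false).card with hcQ
  have a0 : allF γ fs (Sum.inr 0) b = cV / n := rfl
  have a1 : allF γ fs (Sum.inr 1) b = cP / n := rfl
  have a2 : allF γ fs (Sum.inr 2) b = cQ / n := rfl
  rw [a0, abs_lt] at hb0
  rw [a1, abs_lt] at hb1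
  rw [a2, abs_lt] at hb2
  have hVu : (cV : ℝ) ≤ 2 * q * n := by
    rw [← div_le_iff₀ hnpos]; linarith [hb0.2]
  have hPu : (cP : ℝ) ≤ 2 * q * n := by
    rw [← div_le_iff₀ hnpos]; linarith [hb1.2]
  have hVl : p₀ / 8 * n ≤ (cV : ℝ) - p₀ / 8 * n := by
    have : p₀ / 4 * n ≤ cV := by rw [← le_div_iff₀ hnpos]; linarith [hb0.1]
    linarith
  have hQl : p₀ / 4 * n ≤ (cQ : ℝ) := by
    rw [← le_div_iff₀ hnpos]
    linarith [hb2.1]
  have hXR : (K₁ : ℝ) * (XV.card + XC.card) ≤ n := by exact_mod_cast hX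
  have hXb : (XV.card : ℝ) + XC.card ≤ p₀ / 24 * n := by
    have h1 : 24 * ((XV.card : ℝ) + XC.card) ≤ K₁ * p₀ * (XV.card + XC.card) :=
      mul_le_mul_of_nonneg_right hK1 (by positivity)
    have h2 : K₁ * p₀ * ((XV.card : ℝ) + XC.card) ≤ p₀ * n := by
      calc K₁ * p₀ * ((XV.card : ℝ) + XC.card) = p₀ * (K₁ * (XV.card + XC.card)) := by ring
        _ ≤ p₀ * n := mul_le_mul_of_nonneg_left hXR hp0.le
    linarith
  have hXV0 : (0 : ℝ) ≤ XV.card := Nat.cast_nonneg _
  have hXC0 : (0 : ℝ) ≤ XC.card := Nat.cast_nonneg _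
  have hRl : (cV : ℝ) ≤ (Rb b XV).card + XV.card := by
    have : (univ.filter fun x : G => b (Sum.inl x) = true) ⊆ Rb b XV ∪ XV := by
      intro x hx
      rw [Finset.mem_filter] at hx
      by_cases hxV : x ∈ XV
      · exact Finset.mem_union_right _ hxV
      · exact Finset.mem_union_left _ (Finset.mem_filter.2 ⟨Finset.mem_univ _, hx.2, hxV⟩)
    exact_mod_cast (Finset.card_le_card this).trans (Finset.card_union_le _ _)
  have hRu : ((Rb b XV).card : ℝ) ≤ cV := by
    have : Rb b XV ⊆ univ.filter fun x : G => b (Sum.inl x) = true := by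
      intro x hx
      rw [Rb, Finset.mem_filter] at hx
      exact Finset.mem_filter.2 ⟨Finset.mem_univ _, hx.2.1⟩
    exact_mod_cast Finset.card_le_card this
  have hPl : (cQ : ℝ) ≤ (Pb γ b XC).card + 2 * XC.card := by
    have hs : (univ.filter fun x : G => b (Sum.inr x) = true ∧
        b (Sum.inr (x⁻¹ * γ)) = false) ⊆
        Pb γ b XC ∪ (XC ∪ XC.image fun c => γ * c⁻¹) := by
      intro x hx
      rw [Finset.mem_filter] at hx
      by_cases h1 : x ∈ XC
      · exact Finset.mem_union_right _ (Finset.mem_union_left _ h1)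
      by_cases h2 : x⁻¹ * γ ∈ XC
      · refine Finset.mem_union_right _ (Finset.mem_union_right _ ?_)
        rw [Finset.mem_image]
        exact ⟨_, h2, by group⟩
      · exact Finset.mem_union_left _
          (Finset.mem_filter.2 ⟨Finset.mem_univ _, hx.2.1, hx.2.2, h1, h2⟩)
    have h1 := (Finset.card_le_card hs).trans ((Finset.card_union_le _ _).trans
      (Nat.add_le_add_left ((Finset.card_union_le _ _).trans
        (Nat.add_le_add_left Finset.card_image_le _)) _))
    have h2 : cQ ≤ (Pb γ b XC).card + 2 * XC.card := by omega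
    exact_mod_cast h2
  have hPu2 : ((Pb γ b XC).card : ℝ) ≤ cP := by
    have : Pb γ b XC ⊆ univ.filter fun x : G => b (Sum.inr x) = true := by
      intro x hx
      rw [Pb, Finset.mem_filter] at hx
      exact Finset.mem_filter.2 ⟨Finset.mem_univ _, hx.2.1⟩
    exact_mod_cast Finset.card_le_card this
  have hK1n : (n : ℝ) ≤ K₁ * (p₀ / 8 * n) := by
    have h1 := mul_le_mul_of_nonneg_right hK1 hnpos.le
    have h2 : K₁ * p₀ * (n : ℝ) = 8 * (K₁ * (p₀ / 8 * n)) := by ring
    linarith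
  have hpn : 0 < p₀ * n := by positivity
  refine ⟨Rb b XV, Pb γ b XC, ?_, ?_, Pb_nodup γ b XC, ?_, ?_, ?_, ?_, ?_⟩
  · rw [Finset.disjoint_left]
    intro x hx
    rw [Rb, Finset.mem_filter] at hx
    exact hx.2.2
  · intro c hc
    rw [Pb, Finset.mem_filter] at hc
    exact ⟨hc.2.2.2.1, hc.2.2.2.2⟩
  · have : (K₀ : ℝ) * (Rb b XV).card ≤ n := by
      calc (K₀ : ℝ) * (Rb b XV).card ≤ K₀ * (2 * q * n) :=
            mul_le_mul_of_nonneg_left (hRu.trans hVu) hK0
        _ = K₀ * (2 * q) * n := by ring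
        _ ≤ 1 * n := mul_le_mul_of_nonneg_right hKq hnpos.le
        _ = n := one_mul _
    exact_mod_cast this
  · have : (K₀ : ℝ) * (Pb γ b XC).card ≤ n := by
      calc (K₀ : ℝ) * (Pb γ b XC).card ≤ K₀ * (2 * q * n) :=
            mul_le_mul_of_nonneg_left (hPu2.trans hPu) hK0
        _ = K₀ * (2 * q) * n := by ring
        _ ≤ 1 * n := mul_le_mul_of_nonneg_right hKq hnpos.le
        _ = n := one_mul _
    exact_mod_cast this
  · have h1 : p₀ / 8 * n ≤ ((Rb b XV).card : ℝ) := by linarith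
    have h2 : (n : ℝ) ≤ K₁ * (Rb b XV).card :=
      hK1n.trans (mul_le_mul_of_nonneg_left h1 (Nat.cast_nonneg _))
    exact_mod_cast h2
  · have h1 : p₀ / 8 * n ≤ ((Pb γ b XC).card : ℝ) := by linarith
    have h2 : (n : ℝ) ≤ K₁ * (Pb γ b XC).card :=
      hK1n.trans (mul_le_mul_of_nonneg_left h1 (Nat.cast_nonneg _))
    exact_mod_cast h2
  · intro F hFm
    obtain ⟨i, rfl⟩ := List.mem_iff_get.1 hFm
    intro π hcf
    letI := (fs.get i).fΩ
    obtain ⟨h1, h2, h3, h4, h5, h6, h7, h8⟩ := hF _ (hget i)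
    rcases Nat.eq_zero_or_pos (Fintype.card (fs.get i).Ω) with h0 | h0
    · rw [h0]; exact Nat.zero_le _
    have hΩ : (0 : ℝ) < Fintype.card (fs.get i).Ω := by exact_mod_cast h0
    have hE : q ^ (3 * A) / 2 ≤ ∑ b : G ⊕ G → Bool, (∏ i, bern q (b i)) *
        allF γ fs (Sum.inl ⟨i, π⟩) b :=
      fF_E γ ((fs.get i).pw π) ((fs.get i).vw π) A q hq0 hq (fun ω => h2 π ω) hcf h0
    have hbF := hb (Sum.inl ⟨i, π⟩)
    rw [abs_lt] at hbF
    have hf : p₀ / 4 ≤ fF γ ((fs.get i).pw π) ((fs.get i).vw π) b := by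
      have : allF γ fs (Sum.inl ⟨i, π⟩) b = fF γ ((fs.get i).pw π) ((fs.get i).vw π) b := rfl
      rw [← this]
      linarith [hbF.1]
    have hfin := fF_final γ ((fs.get i).pw π) ((fs.get i).vw π) (fs.get i).Lp (fs.get i).Lv K₁
      XV XC b hn0 (h3 π) (h4 π) h7 h8
    unfold fF at hf
    rw [le_div_iff₀ hΩ] at hf
    have hfinR : (K₁ : ℝ) * (univ.filter fun ω => Ev γ ((fs.get i).pw π)
        ((fs.get i).vw π) ω b).card ≤
      K₁ * (univ.filter fun ω => CF γ ((fs.get i).pw π ω) ((fs.get i).vw π ω) ∧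
        (∀ c ∈ (fs.get i).pw π ω, c ∈ Pb γ b XC) ∧
        ∀ v ∈ (fs.get i).vw π ω, v ∈ Rb b XV).card + 3 * Fintype.card (fs.get i).Ω := by
      exact_mod_cast hfin
    have hfinal : (Fintype.card (fs.get i).Ω : ℝ) ≤
      K₁ * (univ.filter fun ω => CF γ ((fs.get i).pw π ω) ((fs.get i).vw π ω) ∧
        (∀ c ∈ (fs.get i).pw π ω, c ∈ Pb γ b XC) ∧
        ∀ v ∈ (fs.get i).vw π ω, v ∈ Rb b XV).card := by
      have h9 := mul_le_mul_of_nonneg_left hf (Nat.cast_nonneg (α := ℝ) K₁)
      have h10 : 24 * (Fintype.card (fs.get i).Ω : ℝ) ≤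
          K₁ * p₀ * Fintype.card (fs.get i).Ω := mul_le_mul_of_nonneg_right hK1 hΩ.le
      have h11 : (K₁ : ℝ) * (p₀ / 4 * Fintype.card (fs.get i).Ω) ≤
          K₁ * (univ.filter fun ω => Ev γ ((fs.get i).pw π) ((fs.get i).vw π) ω b).card := by
        convert h9
      have h12 : (K₁ : ℝ) * (p₀ / 4 * Fintype.card (fs.get i).Ω) =
        (K₁ * p₀ * Fintype.card (fs.get i).Ω) / 4 := by ring
      linarith
    have hfinalN : Fintype.card (fs.get i).Ω ≤
      K₁ * (univ.filter fun ω => CF γ ((fs.get i).pw π ω) ((fs.get i).vw π ω) ∧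
        (∀ c ∈ (fs.get i).pw π ω, c ∈ Pb γ b XC) ∧
        ∀ v ∈ (fs.get i).vw π ω, v ∈ Rb b XV).card := by exact_mod_cast hfinal
    convert hfinalN

end Pool.OM.helper57
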