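import Pool.Agent.Work.MP_8d2cba_co_h18.Interface

/-! MP_8d2cba_co: McDiarmid's inequality for finite product spaces (blocks MCD, MCD2). -/

set_option autoImplicit false

namespace Pool.OM.helper57

open Finset

lemma exp_le_conv {c x : ℝ} (hc : 0 < c) (hx : |x| ≤ c) :
    Real.exp x ≤ Real.cosh c + x * (Real.sinh c / c) := by
  have h := convexOn_exp
  have hx1 := (abs_le.1 hx).1
  have hx2 := (abs_le.1 hx).2
  have h2 := h.2 (Set.mem_univ (-c)) (Set.mem_univ c)
    (show (0 : ℝ) ≤ (c - x) / (2 * c) by apply div_nonneg <;> linarith)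
    (show (0 : ℝ) ≤ (c + x) / (2 * c) by apply div_nonneg <;> linarith)
    (by field_simp; ring)
  simp only [smul_eq_mul] at h2
  have e1 : (c - x) / (2 * c) * -c + (c + x) / (2 * c) * c = x := by field_simp; ring
  rw [e1] at h2
  refine h2.trans (le_of_eq ?_)
  rw [Real.cosh_eq, Real.sinh_eq]
  field_simp
  ring

/-- One variable Hoeffding bound. -/
lemma one_var {α : Type} [Fintype α] (p X : α → ℝ) (c : ℝ) (hp : ∀ a, 0 ≤ p a)
    (hs : ∑ a, p a = 1) (hX : ∀ a, |X a| ≤ c) (h0 : ∑ a, p a * X a = 0) (hc : 0 ≤ c) :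
    ∑ a, p a * Real.exp (X a) ≤ Real.exp (c ^ 2 / 2) := by
  rcases hc.eq_or_lt with hc | hc
  · subst hc
    have hX0 : ∀ a, X a = 0 := fun a => abs_nonpos_iff.1 (hX a)
    simp [hX0, hs]
  · calc ∑ a, p a * Real.exp (X a) ≤ ∑ a, p a * (Real.cosh c + X a * (Real.sinh c / c)) :=
          Finset.sum_le_sum fun a _ => mul_le_mul_of_nonneg_left (exp_le_conv hc (hX a)) (hp a)
      _ = (∑ a, p a) * Real.cosh c + (∑ a, p a * X a) * (Real.sinh c / c) := by
          rw [Finset.sum_mul, Finset.sum_mul, ← Finset.sum_add_distrib]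
          exact Finset.sum_congr rfl fun a _ => by ring
      _ = Real.cosh c := by rw [hs, h0]; ring
      _ ≤ Real.exp (c ^ 2 / 2) := Real.cosh_le_exp_half_sq c

/-- Sum over functions on `Fin (n+1)`. -/
lemma sum_cons {α : Type} [Fintype α] (n : ℕ) (F : (Fin (n + 1) → α) → ℝ) :
    ∑ ω, F ω = ∑ ω' : Fin n → α, ∑ a, F (Fin.cons a ω') := by
  rw [← (Fin.consEquiv fun _ : Fin (n + 1) => α).sum_comp F, Fintype.sum_prod_type,
    Finset.sum_comm]
  rfl

lemma prod_sum_one {α : Type} [Fintype α] (n : ℕ) (p : Fin n → α → ℝ)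
    (hs : ∀ i, ∑ a, p i a = 1) : ∑ ω : Fin n → α, ∏ i, p i (ω i) = 1 := by
  classical
  rw [← Fintype.piFinset_univ, ← Finset.prod_univ_sum]
  simp [hs]

lemma mgf {α : Type} [Fintype α] : ∀ (n : ℕ) (p : Fin n → α → ℝ) (f : (Fin n → α) → ℝ)
    (c : Fin n → ℝ), (∀ i a, 0 ≤ p i a) → (∀ i, ∑ a, p i a = 1) →
    (∀ i (ω ω' : Fin n → α), (∀ j, j ≠ i → ω j = ω' j) → |f ω - f ω'| ≤ c i) →
    ∑ ω, (∏ i, p i (ω i)) * Real.exp (f ω - ∑ ω', (∏ i, p i (ω' i)) * f ω') ≤
      Real.exp ((∑ i, c i ^ 2) / 2) := by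
  intro n
  induction n with
  | zero =>
    intro p f c hp hs hf
    simp
  | succ n ih =>
    intro p f c hp hs hf
    set p' : Fin n → α → ℝ := fun i => p i.succ with hp'
    set g : (Fin n → α) → ℝ := fun ω' => ∑ a, p 0 a * f (Fin.cons a ω') with hg
    have hP : ∀ (a : α) (ω' : Fin n → α),
        ∏ i, p i ((Fin.cons a ω' : Fin (n + 1) → α) i) = p 0 a * ∏ i, p' i (ω' i) := by
      intro a ω'
      rw [Fin.prod_univ_succ]
      simp [hp']
    have hE : ∑ ω, (∏ i, p i (ω i)) * f ω = ∑ ω', (∏ i, p' i (ω' i)) * g ω' := by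
      rw [sum_cons]
      refine Finset.sum_congr rfl fun ω' _ => ?_
      simp only [hP, hg, Finset.mul_sum]
      exact Finset.sum_congr rfl fun a _ => by ring
    rw [hE]
    set m := ∑ ω', (∏ i, p' i (ω' i)) * g ω' with hm
    -- we need `c 0 ≥ 0`
    have hα : Nonempty α := by
      by_contra h
      rw [not_nonempty_iff] at h
      have := hs 0
      simp at this
    have hc0 : 0 ≤ c 0 := (abs_nonneg _).trans
      (hf 0 (fun _ => hα.some) (fun _ => hα.some) fun _ _ => rfl)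
    have hfg : ∀ (a : α) (ω' : Fin n → α), |f (Fin.cons a ω') - g ω'| ≤ c 0 := by
      intro a ω'
      have e : f (Fin.cons a ω') - g ω' =
          ∑ b, p 0 b * (f (Fin.cons a ω') - f (Fin.cons b ω')) := by
        simp only [hg, mul_sub, Finset.sum_sub_distrib, ← Finset.sum_mul, hs 0, one_mul]
      rw [e]
      calc |∑ b, p 0 b * (f (Fin.cons a ω') - f (Fin.cons b ω'))|
          ≤ ∑ b, |p 0 b * (f (Fin.cons a ω') - f (Fin.cons b ω'))| :=
            Finset.abs_sum_le_sum_abs _ _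
        _ ≤ ∑ b, p 0 b * c 0 := by
            refine Finset.sum_le_sum fun b _ => ?_
            rw [abs_mul, abs_of_nonneg (hp 0 b)]
            refine mul_le_mul_of_nonneg_left (hf 0 _ _ ?_) (hp 0 b)
            intro j hj
            refine Fin.cases (fun h => absurd rfl h) (fun j _ => ?_) j hj
            simp
        _ = c 0 := by rw [← Finset.sum_mul, hs 0, one_mul]
    have hsum0 : ∀ ω' : Fin n → α, ∑ a, p 0 a * (f (Fin.cons a ω') - g ω') = 0 := by
      intro ω'
      simp only [mul_sub, Finset.sum_sub_distrib, ← Finset.sum_mul, hs 0, one_mul, hg, sub_self]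
    have hgBD : ∀ i (ω ω' : Fin n → α), (∀ j, j ≠ i → ω j = ω' j) →
        |g ω - g ω'| ≤ c i.succ := by
      intro i ω ω' h
      have e : g ω - g ω' = ∑ b, p 0 b * (f (Fin.cons b ω) - f (Fin.cons b ω')) := by
        simp only [hg, mul_sub, Finset.sum_sub_distrib]
      rw [e]
      calc |∑ b, p 0 b * (f (Fin.cons b ω) - f (Fin.cons b ω'))|
          ≤ ∑ b, |p 0 b * (f (Fin.cons b ω) - f (Fin.cons b ω'))| :=
            Finset.abs_sum_le_sum_abs _ _
        _ ≤ ∑ b, p 0 b * c i.succ := by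
            refine Finset.sum_le_sum fun b _ => ?_
            rw [abs_mul, abs_of_nonneg (hp 0 b)]
            refine mul_le_mul_of_nonneg_left (hf i.succ _ _ ?_) (hp 0 b)
            intro j
            refine Fin.cases (fun _ => by simp) (fun j hj => ?_) j
            simp only [Fin.cons_succ]
            exact h j fun h' => hj (by rw [h'])
        _ = c i.succ := by rw [← Finset.sum_mul, hs 0, one_mul]
    have hIH := ih p' g (fun i => c i.succ) (fun i a => hp _ _) (fun i => hs _) hgBD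
    rw [← hm] at hIH
    rw [sum_cons, Fin.sum_univ_succ, add_div, Real.exp_add]
    calc ∑ ω' : Fin n → α, ∑ a, (∏ i, p i ((Fin.cons a ω' : Fin (n + 1) → α) i)) *
            Real.exp (f (Fin.cons a ω') - m)
        = ∑ ω' : Fin n → α, ((∏ i, p' i (ω' i)) * Real.exp (g ω' - m)) *
            ∑ a, p 0 a * Real.exp (f (Fin.cons a ω') - g ω') := by
          refine Finset.sum_congr rfl fun ω' _ => ?_
          rw [Finset.mul_sum]
          refine Finset.sum_congr rfl fun a _ => ?_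
          have : f (Fin.cons a ω') - m = (g ω' - m) + (f (Fin.cons a ω') - g ω') := by ring
          rw [hP, this, Real.exp_add]
          ring
      _ ≤ ∑ ω' : Fin n → α, ((∏ i, p' i (ω' i)) * Real.exp (g ω' - m)) *
            Real.exp (c 0 ^ 2 / 2) := by
          refine Finset.sum_le_sum fun ω' _ => mul_le_mul_of_nonneg_left ?_ ?_
          · exact one_var (p 0) _ (c 0) (hp 0) (hs 0) (fun a => hfg a ω') (hsum0 ω') hc0
          · exact mul_nonneg (Finset.prod_nonneg fun i _ => hp _ _) (Real.exp_pos _).le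
      _ = (∑ ω' : Fin n → α, ((∏ i, p' i (ω' i)) * Real.exp (g ω' - m))) *
            Real.exp (c 0 ^ 2 / 2) := by rw [Finset.sum_mul]
      _ ≤ Real.exp ((∑ i : Fin n, c i.succ ^ 2) / 2) * Real.exp (c 0 ^ 2 / 2) :=
          mul_le_mul_of_nonneg_right hIH (Real.exp_pos _).le
      _ = Real.exp (c 0 ^ 2 / 2) * Real.exp ((∑ i : Fin n, c i.succ ^ 2) / 2) := mul_comm _ _

/-- The same for an arbitrary finite index type. -/
lemma mgf' {ι α : Type} [Fintype ι] [DecidableEq ι] [Fintype α] (p : ι → α → ℝ)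
    (f : (ι → α) → ℝ) (c : ι → ℝ) (hp : ∀ i a, 0 ≤ p i a) (hs : ∀ i, ∑ a, p i a = 1)
    (hf : ∀ i (ω ω' : ι → α), (∀ j, j ≠ i → ω j = ω' j) → |f ω - f ω'| ≤ c i) :
    ∑ ω, (∏ i, p i (ω i)) * Real.exp (f ω - ∑ ω', (∏ i, p i (ω' i)) * f ω') ≤
      Real.exp ((∑ i, c i ^ 2) / 2) := by
  set e := Fintype.equivFin ι with he
  set T : (Fin (Fintype.card ι) → α) ≃ (ι → α) := (Equiv.arrowCongr e.symm (Equiv.refl α)) with hT
  have hTe : ∀ (ω : Fin (Fintype.card ι) → α) (i : ι), T ω i = ω (e i) := fun ω i => rfl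
  have hprod : ∀ ω : Fin (Fintype.card ι) → α,
      ∏ i, p i (T ω i) = ∏ j, p (e.symm j) (ω j) := by
    intro ω
    rw [← e.prod_comp fun j => p (e.symm j) (ω j)]
    exact Finset.prod_congr rfl fun i _ => by rw [hTe, e.symm_apply_apply]
  have h := mgf (Fintype.card ι) (fun j => p (e.symm j)) (fun ω => f (T ω))
    (fun j => c (e.symm j)) (fun j a => hp _ _) (fun j => hs _) (by
      intro i ω ω' h
      refine hf _ _ _ fun j hj => ?_
      rw [hTe, hTe]
      exact h _ fun h' => hj (by rw [← h', e.symm_apply_apply]))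
  have e1 : ∑ ω', (∏ i, p i (ω' i)) * f ω' =
      ∑ ω', (∏ j, p (e.symm j) (ω' j)) * f (T ω') := by
    rw [← T.sum_comp]
    exact Finset.sum_congr rfl fun ω _ => by rw [hprod]
  rw [e1, ← T.sum_comp]
  rw [← e.symm.sum_comp fun i => c i ^ 2]
  refine le_trans (le_of_eq ?_) h
  exact Finset.sum_congr rfl fun ω _ => by rw [hprod]

lemma prob_one {ι α : Type} [Fintype ι] [DecidableEq ι] [Fintype α] (p : ι → α → ℝ)
    (hs : ∀ i, ∑ a, p i a = 1) : ∑ ω : ι → α, ∏ i, p i (ω i) = 1 := by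
  classical
  rw [← Fintype.piFinset_univ, ← Finset.prod_univ_sum]
  simp [hs]

/-- One-sided bound. -/
lemma one_sided {ι α : Type} [Fintype ι] [DecidableEq ι] [Fintype α] (p : ι → α → ℝ)
    (f : (ι → α) → ℝ) (c : ι → ℝ) (s t : ℝ) (hp : ∀ i a, 0 ≤ p i a)
    (hs : ∀ i, ∑ a, p i a = 1)
    (hf : ∀ i (ω ω' : ι → α), (∀ j, j ≠ i → ω j = ω' j) → |f ω - f ω'| ≤ c i)
    (hcs : ∑ i, c i ^ 2 ≤ s) (hs0 : 0 < s) (ht : 0 ≤ t) :
    ∑ ω ∈ univ.filter (fun ω : ι → α => t ≤ f ω - ∑ ω', (∏ i, p i (ω' i)) * f ω'),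
      ∏ i, p i (ω i) ≤ Real.exp (- t ^ 2 / (2 * s)) := by
  set l := t / s with hl
  have hl0 : 0 ≤ l := div_nonneg ht hs0.le
  set m := ∑ ω', (∏ i, p i (ω' i)) * f ω' with hm
  have h := mgf' p (fun ω => l * f ω) (fun i => l * c i) hp hs (by
    intro i ω ω' h
    rw [← mul_sub, abs_mul, abs_of_nonneg hl0]
    exact mul_le_mul_of_nonneg_left (hf i ω ω' h) hl0)
  have e1 : ∑ ω', (∏ i, p i (ω' i)) * (l * f ω') = l * m := by
    rw [hm, Finset.mul_sum]
    exact Finset.sum_congr rfl fun ω _ => by ring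
  simp only [e1] at h
  have e2 : (∑ i, (l * c i) ^ 2) / 2 ≤ l ^ 2 * s / 2 := by
    have : ∑ i, (l * c i) ^ 2 = l ^ 2 * ∑ i, c i ^ 2 := by
      rw [Finset.mul_sum]
      exact Finset.sum_congr rfl fun i _ => by ring
    rw [this]
    have := mul_le_mul_of_nonneg_left hcs (sq_nonneg l)
    linarith
  have h1 : ∑ ω ∈ univ.filter (fun ω : ι → α => t ≤ f ω - m), ∏ i, p i (ω i) ≤
      Real.exp (- (l * t)) *
        ∑ ω, (∏ i, p i (ω i)) * Real.exp (l * f ω - l * m) := by
    rw [Finset.mul_sum]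
    refine le_trans (Finset.sum_le_sum fun ω hω => ?_)
      (Finset.sum_le_sum_of_subset_of_nonneg (Finset.subset_univ _) fun ω _ _ => ?_)
    · rw [Finset.mem_filter] at hω
      have h0 : 0 ≤ ∏ i, p i (ω i) := Finset.prod_nonneg fun i _ => hp _ _
      have h3 : (1 : ℝ) ≤ Real.exp (- (l * t)) * Real.exp (l * f ω - l * m) := by
        rw [← Real.exp_add]
        refine Real.one_le_exp ?_
        have := mul_le_mul_of_nonneg_left hω.2 hl0
        linarith
      calc ∏ i, p i (ω i) = (∏ i, p i (ω i)) * 1 := (mul_one _).symm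
        _ ≤ (∏ i, p i (ω i)) * (Real.exp (- (l * t)) * Real.exp (l * f ω - l * m)) :=
          mul_le_mul_of_nonneg_left h3 h0
        _ = Real.exp (- (l * t)) * ((∏ i, p i (ω i)) * Real.exp (l * f ω - l * m)) := by ring
    · exact mul_nonneg (Real.exp_pos _).le
        (mul_nonneg (Finset.prod_nonneg fun i _ => hp _ _) (Real.exp_pos _).le)
  refine h1.trans ((mul_le_mul_of_nonneg_left h (Real.exp_pos _).le).trans ?_)
  rw [← Real.exp_add]
  refine Real.exp_le_exp.2 ?_
  have e3 : -(l * t) + l ^ 2 * s / 2 = - t ^ 2 / (2 * s) := by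
    rw [hl]; field_simp; ring
  linarith

theorem stmt_MCD : Stmt_MCD := by
  intro ι α _ _ _ _ p f c s t hp hs hf hcs hs0 ht
  set m := ∑ ω', (∏ i, p i (ω' i)) * f ω' with hm
  have h1 := one_sided p f c s t hp hs hf hcs hs0 ht
  have h2 := one_sided p (fun ω => - f ω) c s t hp hs (by
    intro i ω ω' h
    have := hf i ω ω' h
    rw [abs_sub_comm] at this
    have e : - f ω - - f ω' = f ω' - f ω := by ring
    rw [e]
    exact this) hcs hs0 ht
  have e1 : ∑ ω', (∏ i, p i (ω' i)) * - f ω' = - m := by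
    rw [hm, ← Finset.sum_neg_distrib]
    exact Finset.sum_congr rfl fun ω _ => by ring
  simp only [e1] at h2
  rw [← hm] at h1
  have hsub : univ.filter (fun ω : ι → α => t ≤ |f ω - m|) ⊆
      univ.filter (fun ω : ι → α => t ≤ f ω - m) ∪
        univ.filter (fun ω : ι → α => t ≤ - f ω - -m) := by
    intro ω hω
    simp only [Finset.mem_filter, Finset.mem_univ, true_and, Finset.mem_union] at hω ⊢
    rcases le_abs.1 hω with h | h
    · exact Or.inl h
    · exact Or.inr (by linarith)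
  calc ∑ ω ∈ univ.filter (fun ω : ι → α => t ≤ |f ω - m|), ∏ i, p i (ω i)
      ≤ ∑ ω ∈ univ.filter (fun ω : ι → α => t ≤ f ω - m) ∪
        univ.filter (fun ω : ι → α => t ≤ - f ω - -m), ∏ i, p i (ω i) :=
        Finset.sum_le_sum_of_subset_of_nonneg hsub fun ω _ _ =>
          Finset.prod_nonneg fun i _ => hp _ _
    _ ≤ ∑ ω ∈ univ.filter (fun ω : ι → α => t ≤ f ω - m), ∏ i, p i (ω i) +
        ∑ ω ∈ univ.filter (fun ω : ι → α => t ≤ - f ω - -m), ∏ i, p i (ω i) := by
        rw [← Finset.sum_union_inter]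
        exact le_add_of_nonneg_right (Finset.sum_nonneg fun ω _ =>
          Finset.prod_nonneg fun i _ => hp _ _)
    _ ≤ 2 * Real.exp (- t ^ 2 / (2 * s)) := by linarith

theorem stmt_MCD2 : Stmt_MCD2 := by
  intro ι α J _ _ _ _ _ p f c s t hp hs hf hcs hs0 ht hsmall g hg
  classical
  set Pr : (ι → α) → ℝ := fun ω => ∏ i, p i (ω i) with hPr
  have hPr0 : ∀ ω, 0 ≤ Pr ω := fun ω => Finset.prod_nonneg fun i _ => hp _ _
  have hPr1 : ∑ ω, Pr ω = 1 := prob_one p hs
  set E : ℝ := ∑ ω', Pr ω' * g ω' with hE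
  have hE0 : 0 ≤ E := Finset.sum_nonneg fun ω _ => mul_nonneg (hPr0 ω) (hg ω)
  set B : J → Finset (ι → α) := fun j =>
    univ.filter fun ω => t j ≤ |f j ω - ∑ ω', (∏ i, p i (ω' i)) * f j ω'| with hB
  set B' : Finset (ι → α) := univ.filter fun ω => 2 * E < g ω with hB'
  have hBj : ∀ j, ∑ ω ∈ B j, Pr ω ≤ 2 * Real.exp (- t j ^ 2 / (2 * s j)) := fun j =>
    stmt_MCD ι α p (f j) (c j) (s j) (t j) hp hs (hf j) (hcs j) (hs0 j) (ht j)
  have hBU : ∑ ω ∈ univ.biUnion B, Pr ω < 1 / 2 := by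
    refine lt_of_le_of_lt ?_ hsmall
    refine le_trans ?_ (Finset.sum_le_sum fun j _ => hBj j)
    have key : ∀ S : Finset J, ∑ ω ∈ S.biUnion B, Pr ω ≤ ∑ j ∈ S, ∑ ω ∈ B j, Pr ω := by
      intro S
      induction S using Finset.induction_on with
      | empty => simp
      | insert a S ha ih =>
        rw [Finset.biUnion_insert, Finset.sum_insert ha]
        have h1 : ∑ ω ∈ B a ∪ S.biUnion B, Pr ω ≤ ∑ ω ∈ B a, Pr ω + ∑ ω ∈ S.biUnion B, Pr ω := by
          rw [← Finset.sum_union_inter]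
          exact le_add_of_nonneg_right (Finset.sum_nonneg fun ω _ => hPr0 ω)
        linarith
    exact key univ
  have hB'2 : ∑ ω ∈ B', Pr ω ≤ 1 / 2 := by
    by_contra hcon
    push Not at hcon
    have h1 : 2 * E * ∑ ω ∈ B', Pr ω ≤ E := by
      rw [Finset.mul_sum]
      calc ∑ ω ∈ B', 2 * E * Pr ω ≤ ∑ ω ∈ B', Pr ω * g ω := by
            refine Finset.sum_le_sum fun ω hω => ?_
            rw [hB', Finset.mem_filter] at hω
            have := mul_le_mul_of_nonneg_left hω.2.le (hPr0 ω)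
            linarith
        _ ≤ E := Finset.sum_le_sum_of_subset_of_nonneg (Finset.subset_univ _) fun ω _ _ =>
            mul_nonneg (hPr0 ω) (hg ω)
    -- strict inequality
    rcases hE0.eq_or_lt with h0 | h0
    · -- E = 0
      have hz : ∀ ω ∈ B', Pr ω = 0 := by
        intro ω hω
        have h2 : Pr ω * g ω = 0 := by
          have := (Finset.sum_eq_zero_iff_of_nonneg (fun ω _ => mul_nonneg (hPr0 ω) (hg ω))).1
            (h0.symm : ∑ ω', Pr ω' * g ω' = 0) ω (Finset.mem_univ ω)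
          exact this
        rw [hB', Finset.mem_filter] at hω
        have h3 : 0 < g ω := by
          have := hω.2
          rw [← h0] at this
          linarith
        rcases mul_eq_zero.1 h2 with h | h
        · exact h
        · exact absurd h h3.ne'
      rw [Finset.sum_eq_zero hz] at hcon
      norm_num at hcon
    · nlinarith
  -- there is a good outcome of positive probability
  by_contra hno
  push Not at hno
  have hall : ∀ ω, Pr ω ≠ 0 → ω ∈ univ.biUnion B ∪ B' := by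
    intro ω hω
    by_contra hnot
    simp only [Finset.mem_union, Finset.mem_biUnion, Finset.mem_univ, true_and, not_or,
      not_exists, hB, hB', Finset.mem_filter, not_le, not_lt] at hnot
    have hpos : ∀ i, 0 < p i (ω i) := by
      intro i
      rcases (hp i (ω i)).eq_or_lt with h | h
      · exact absurd (Finset.prod_eq_zero (Finset.mem_univ i) h.symm) hω
      · exact h
    have := hno ω hpos hnot.1
    linarith [hnot.2]
  have htot : ∑ ω, Pr ω ≤ ∑ ω ∈ univ.biUnion B, Pr ω + ∑ ω ∈ B', Pr ω := by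
    have h1 : ∑ ω, Pr ω = ∑ ω ∈ univ.biUnion B ∪ B', Pr ω := by
      symm
      refine Finset.sum_subset (Finset.subset_univ _) fun ω _ hω => ?_
      by_contra h
      exact hω (hall ω h)
    rw [h1, ← Finset.sum_union_inter]
    exact le_add_of_nonneg_right (Finset.sum_nonneg fun ω _ => hPr0 ω)
  linarith

end Pool.OM.helper57
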