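import Pool.Agent.Work.MP_8d2cba_co_helper57.Tools

/-! MP_8d2cba_co: block S, random junction set. -/

set_option autoImplicit false

namespace Pool.OM.helper57

open Finset

section det
variable {G : Type} [Fintype G] [DecidableEq G]

/-- changing a set to one of the right size disjoint from `D` -/
lemma adjust (S₀ D : Finset G) (m d : ℕ) (e : ℝ) (hD : D.card ≤ d)
    (hm : |(S₀.card : ℝ) - m| ≤ e) (hd : m + d ≤ Fintype.card G) :
    ∃ S U : Finset G, Disjoint S D ∧ S.card = m ∧ (∀ x, x ∉ U → (x ∈ S ↔ x ∈ S₀)) ∧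
      (U.card : ℝ) ≤ e + 2 * d := by
  rcases le_total m (S₀ \ D).card with h | h
  · obtain ⟨S, hS, hSc⟩ := Finset.exists_subset_card_eq h
    have hSS : S ⊆ S₀ := hS.trans Finset.sdiff_subset
    refine ⟨S, S₀ \ S, ?_, hSc, ?_, ?_⟩
    · exact Finset.disjoint_of_subset_left hS Finset.sdiff_disjoint
    · intro x hx
      rw [Finset.mem_sdiff] at hx
      push Not at hx
      exact ⟨fun h => hSS h, hx⟩
    · have h1 : (S₀ \ S).card + S.card = S₀.card := Finset.card_sdiff_add_card_eq_card hSS
      have h2 : ((S₀ \ S).card : ℝ) + m = S₀.card := by rw [← hSc]; exact_mod_cast h1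
      have h3 := (abs_le.1 hm).2
      have : (0 : ℝ) ≤ d := Nat.cast_nonneg d
      linarith
  · have h1 : (univ \ D : Finset G).card = Fintype.card G - D.card := by
      rw [Finset.card_sdiff_of_subset (Finset.subset_univ D), Finset.card_univ]
    obtain ⟨S, hS1, hS2, hSc⟩ := Finset.exists_subsuperset_card_eq
      (show S₀ \ D ⊆ univ \ D from Finset.sdiff_subset_sdiff (Finset.subset_univ _) subset_rfl)
      h (by rw [h1]; omega)
    refine ⟨S, (S \ (S₀ \ D)) ∪ D, ?_, hSc, ?_, ?_⟩
    · exact Finset.disjoint_of_subset_left hS2 Finset.sdiff_disjoint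
    · intro x hx
      rw [Finset.mem_union, Finset.mem_sdiff, Finset.mem_sdiff] at hx
      push Not at hx
      constructor
      · intro h
        exact (hx.1 h).1
      · intro h
        exact hS1 (Finset.mem_sdiff.2 ⟨h, hx.2⟩)
    · have h2 : (S \ (S₀ \ D)).card + (S₀ \ D).card = S.card :=
        Finset.card_sdiff_add_card_eq_card hS1
      have h3 : S₀.card ≤ (S₀ \ D).card + D.card := by
        have := Finset.card_le_card (show S₀ ⊆ (S₀ \ D) ∪ D by
          intro x hx
          by_cases hxD : x ∈ D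
          · exact Finset.mem_union_right _ hxD
          · exact Finset.mem_union_left _ (Finset.mem_sdiff.2 ⟨hx, hxD⟩))
        exact this.trans (Finset.card_union_le _ _)
      have h4 : ((S \ (S₀ \ D)).card : ℝ) + (S₀ \ D).card = m := by rw [← hSc]; exact_mod_cast h2
      have h5 : (S₀.card : ℝ) ≤ (S₀ \ D).card + D.card := by exact_mod_cast h3
      have h6 : (D.card : ℝ) ≤ d := by exact_mod_cast hD
      have h7 := (abs_le.1 hm).1
      have h8 : (((S \ (S₀ \ D)) ∪ D).card : ℝ) ≤ (S \ (S₀ \ D)).card + D.card := by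
        exact_mod_cast Finset.card_union_le _ _
      linarith

end det

/-- probability weights of Bernoulli bits -/
noncomputable def bern (q : ℝ) (b : Bool) : ℝ := if b then q else 1 - q

lemma bern_nonneg {q : ℝ} (h0 : 0 ≤ q) (h1 : q ≤ 1) (b : Bool) : 0 ≤ bern q b := by
  unfold bern; split_ifs <;> linarith

lemma bern_sum (q : ℝ) : ∑ b, bern q b = 1 := by
  rw [Fintype.sum_bool]; simp [bern]

/-- expectation of a counting function -/
lemma exp_count {ι α X : Type} [Fintype ι] [DecidableEq ι] [Fintype α] [DecidableEq α]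
    [Fintype X] [DecidableEq X] (p : ι → α → ℝ) (Q : X → (ι → α) → Prop)
    [∀ ω, DecidablePred fun x => Q x ω] :
    ∑ ω : ι → α, (∏ i, p i (ω i)) * ((univ.filter fun x => Q x ω).card : ℝ) =
      ∑ x, ∑ ω : ι → α, (∏ i, p i (ω i)) * (if Q x ω then 1 else 0) := by
  rw [Finset.sum_comm]
  refine Finset.sum_congr rfl fun ω _ => ?_
  rw [← Finset.mul_sum, Finset.card_filter]
  push_cast
  rfl

section main
variable {G : Type} [Group G] [Fintype G] [DecidableEq G]

/-- the random functions -/
noncomputable def fS : (G × G × G) ⊕ G ⊕ Unit → (G → Bool) → ℝ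
  | Sum.inl (a, b, c), ω => ((univ.filter fun x => ω x = false ∧ ω (x * a) = false ∧
      ω (x * b) = false ∧ ω (x * c) = false).card : ℝ)
  | Sum.inr (Sum.inl c), ω => ((univ.filter fun x => ω x = true ∧ ω (x * c) = true).card : ℝ)
  | Sum.inr (Sum.inr _), ω => ((univ.filter fun x => ω x = true).card : ℝ)

lemma fS_bd (j : (G × G × G) ⊕ G ⊕ Unit) (i : G) (ω ω' : G → Bool)
    (h : ∀ k, k ≠ i → ω k = ω' k) : |fS j ω - fS j ω'| ≤ 4 := by
  rcases j with ⟨a, b, c⟩ | c | _
  · refine (bd_count (fun x (ω : G → Bool) => ω x = false ∧ ω (x * a) = false ∧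
      ω (x * b) = false ∧ ω (x * c) = false)
      (fun x k => k = x ∨ k = x * a ∨ k = x * b ∨ k = x * c) ?_ i ω ω' h).trans ?_
    · rintro x ω ω' h ⟨h1, h2, h3, h4⟩
      refine ⟨?_, ?_, ?_, ?_⟩
      · rw [← h x (by simp)]; exact h1
      · rw [← h (x * a) (by simp)]; exact h2
      · rw [← h (x * b) (by simp)]; exact h3
      · rw [← h (x * c) (by simp)]; exact h4
    · have : (univ.filter fun x => i = x ∨ i = x * a ∨ i = x * b ∨ i = x * c) ⊆
          {i, i * a⁻¹, i * b⁻¹, i * c⁻¹} := by
        intro x hx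
        simp only [Finset.mem_filter, Finset.mem_univ, true_and] at hx
        simp only [Finset.mem_insert, Finset.mem_singleton]
        rcases hx with h | h | h | h
        · exact Or.inl h.symm
        · right; left; rw [h]; group
        · right; right; left; rw [h]; group
        · right; right; right; rw [h]; group
      have h2 := (Finset.card_le_card this).trans Finset.card_le_four
      exact_mod_cast h2
  · refine (bd_count (fun x (ω : G → Bool) => ω x = true ∧ ω (x * c) = true)
      (fun x k => k = x ∨ k = x * c) ?_ i ω ω' h).trans ?_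
    · rintro x ω ω' h ⟨h1, h2⟩
      refine ⟨?_, ?_⟩
      · rw [← h x (by simp)]; exact h1
      · rw [← h (x * c) (by simp)]; exact h2
    · have : (univ.filter fun x => i = x ∨ i = x * c) ⊆ {i, i * c⁻¹} := by
        intro x hx
        simp only [Finset.mem_filter, Finset.mem_univ, true_and] at hx
        simp only [Finset.mem_insert, Finset.mem_singleton]
        rcases hx with h | h
        · exact Or.inl h.symm
        · right; rw [h]; group
      have h2 := (Finset.card_le_card this).trans Finset.card_le_two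
      have h3 : ((univ.filter fun x => i = x ∨ i = x * c).card : ℝ) ≤ 2 := by exact_mod_cast h2
      linarith
  · refine (bd_count (fun x (ω : G → Bool) => ω x = true)
      (fun x k => k = x) ?_ i ω ω' h).trans ?_
    · intro x ω ω' h h1
      rw [← h x rfl]; exact h1
    · have : (univ.filter fun x => i = x) ⊆ {i} := by
        intro x hx
        simp only [Finset.mem_filter, Finset.mem_univ, true_and] at hx
        simp [hx]
      have h2 := (Finset.card_le_card this)
      rw [Finset.card_singleton] at h2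
      have h3 : ((univ.filter fun x => i = x).card : ℝ) ≤ 1 := by exact_mod_cast h2
      linarith

lemma fS_E0 (q : ℝ) : ∑ ω : G → Bool, (∏ i, bern q (ω i)) *
    fS (Sum.inr (Sum.inr ())) ω = Fintype.card G * q := by
  unfold fS
  rw [exp_count (fun _ => bern q) (fun x (ω : G → Bool) => ω x = true)]
  have : ∀ x : G, ∑ ω : G → Bool, (∏ i, bern q (ω i)) * (if ω x = true then (1 : ℝ) else 0) =
      q := by
    intro x
    have := prob_cyl (fun _ : G => bern q) (fun _ => bern_sum q) {x} (fun _ => true)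
    simpa [bern] using this
  rw [Finset.sum_congr rfl fun x _ => this x, Finset.sum_const, Finset.card_univ, nsmul_eq_mul]

lemma fS_E1 (q : ℝ) (c : G) (hc : c ≠ 1) : ∑ ω : G → Bool, (∏ i, bern q (ω i)) *
    fS (Sum.inr (Sum.inl c)) ω = Fintype.card G * q ^ 2 := by
  unfold fS
  rw [exp_count (fun _ => bern q) (fun x (ω : G → Bool) => ω x = true ∧ ω (x * c) = true)]
  have : ∀ x : G, ∑ ω : G → Bool, (∏ i, bern q (ω i)) *
      (if ω x = true ∧ ω (x * c) = true then (1 : ℝ) else 0) = q ^ 2 := by
    intro x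
    have := prob_cyl (fun _ : G => bern q) (fun _ => bern_sum q) {x, x * c} (fun _ => true)
    rw [Finset.prod_const, Finset.card_pair (by simpa using hc)] at this
    simpa [bern] using this
  rw [Finset.sum_congr rfl fun x _ => this x, Finset.sum_const, Finset.card_univ, nsmul_eq_mul]

lemma fS_E2 (q : ℝ) (a b c : G) (ha : a ≠ 1) (hb : b ≠ 1) (hc : c ≠ 1) (hab : a ≠ b)
    (hac : a ≠ c) (hbc : b ≠ c) : ∑ ω : G → Bool, (∏ i, bern q (ω i)) *
    fS (Sum.inl (a, b, c)) ω = Fintype.card G * (1 - q) ^ 4 := by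
  unfold fS
  rw [exp_count (fun _ => bern q) (fun x (ω : G → Bool) => ω x = false ∧ ω (x * a) = false ∧
    ω (x * b) = false ∧ ω (x * c) = false)]
  have : ∀ x : G, ∑ ω : G → Bool, (∏ i, bern q (ω i)) *
      (if ω x = false ∧ ω (x * a) = false ∧ ω (x * b) = false ∧ ω (x * c) = false
        then (1 : ℝ) else 0) = (1 - q) ^ 4 := by
    intro x
    have := prob_cyl (fun _ : G => bern q) (fun _ => bern_sum q) {x, x * a, x * b, x * c}
      (fun _ => false)
    have h4 : ({x, x * a, x * b, x * c} : Finset G).card = 4 := by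
      rw [Finset.card_insert_of_notMem, Finset.card_insert_of_notMem,
        Finset.card_insert_of_notMem, Finset.card_singleton]
      · simpa using hbc
      · simpa using ⟨hab, hac⟩
      · simpa using ⟨ha, hb, hc⟩
    rw [Finset.prod_const, h4] at this
    simpa [bern] using this
  rw [Finset.sum_congr rfl fun x _ => this x, Finset.sum_const, Finset.card_univ, nsmul_eq_mul]

end main

theorem stmt_S : Stmt_S := by
  intro ε hε
  set ε' : ℝ := min (ε / 10) (1 / 300) with hε'
  have he0 : 0 < ε' := lt_min (by positivity) (by norm_num)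
  have he1 : ε' ≤ ε / 10 := min_le_left _ _
  have he2 : ε' ≤ 1 / 300 := min_le_right _ _
  obtain ⟨N, hN⟩ := exp_small 3 6 (ε' ^ 2 / 32) (1 / 2) (by positivity) (by norm_num)
  refine ⟨ε' / 2, N + 1, by positivity, ?_⟩
  intro G _ _ _ hG D m hD hm1 hm2
  set n := Fintype.card G with hn
  have hn1 : 1 ≤ n := by omega
  have hnR : (1 : ℝ) ≤ n := by exact_mod_cast hn1
  have hnpos : (0 : ℝ) < n := by linarith
  set q : ℝ := m / n with hq
  have hqn : n * q = m := by rw [hq]; field_simp
  have hm2R : 3 * (m : ℝ) ≤ n := by exact_mod_cast hm2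
  have hq0 : 0 ≤ q := by positivity
  have hq3 : q ≤ 1 / 3 := by
    rw [hq, div_le_iff₀ hnpos]; linarith
  have hm1n : (n : ℝ) * q ^ 2 = (m : ℝ) ^ 2 / n := by
    rw [hq]; field_simp
  obtain ⟨ω, _, hω, _⟩ := stmt_MCD2 G Bool ((G × G × G) ⊕ G ⊕ Unit) (fun _ => bern q) fS
    (fun _ _ => 4) (fun _ => 16 * n) (fun _ => ε' * n)
    (fun _ b => bern_nonneg hq0 (by linarith) b) (fun _ => bern_sum q)
    (fun j i ω ω' h => fS_bd j i ω ω' h)
    (fun j => by
      rw [Finset.sum_const, Finset.card_univ, nsmul_eq_mul, ← hn]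
      apply le_of_eq; ring)
    (fun _ => by positivity) (fun _ => by positivity)
    (by
      rw [Finset.sum_const, Finset.card_univ, nsmul_eq_mul]
      have hc : Fintype.card ((G × G × G) ⊕ G ⊕ Unit) = n * (n * n) + (n + 1) := by
        simp [hn]
      rw [hc]
      have e : -(ε' * (n : ℝ)) ^ 2 / (2 * (16 * n)) = -(ε' ^ 2 / 32 * n) := by
        field_simp; ring
      rw [e]
      refine lt_of_le_of_lt ?_ (hN n (by omega))
      rw [← mul_assoc]
      refine mul_le_mul_of_nonneg_right ?_ (Real.exp_pos _).le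
      push_cast
      have h1 : (n : ℝ) ≤ (n : ℝ) ^ 3 := le_self_pow₀ hnR (by norm_num)
      have h2 : (1 : ℝ) ≤ (n : ℝ) ^ 3 := one_le_pow₀ hnR
      nlinarith [h1, h2])
    (fun _ => 0) (fun _ => le_rfl)
  set S₀ : Finset G := univ.filter fun x => ω x = true with hS₀
  have h0 := hω (Sum.inr (Sum.inr ()))
  rw [fS_E0, ← hn, hqn] at h0
  have hmem : ∀ x, x ∈ S₀ ↔ ω x = true := by intro x; simp [hS₀]
  have hDn : (m + D.card : ℝ) ≤ n := by
    have : ε' / 2 * (n : ℝ) ≤ 1 / 600 * n := mul_le_mul_of_nonneg_right (by linarith) hnpos.le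
    linarith
  obtain ⟨S, U, hSD, hSc, hSU, hU⟩ := adjust S₀ D m D.card (ε' * n) le_rfl h0.le
    (by exact_mod_cast hDn)
  have hU2 : (U.card : ℝ) ≤ 2 * ε' * n := by linarith
  refine ⟨S, hSD, hSc, ?_, ?_⟩
  · intro c hc
    have h1 := hω (Sum.inr (Sum.inl c))
    rw [fS_E1 q c hc, ← hn, hm1n] at h1
    have h2 : |((S.filter fun x => x * c ∈ S).card : ℝ) - fS (Sum.inr (Sum.inl c)) ω| ≤
        2 * U.card := by
      refine (card_diff _ _ ((univ.filter fun x => x * 1 ∈ U) ∪
        (univ.filter fun x => x * c ∈ U)) ?_).trans ?_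
      · intro x hx
        simp only [Finset.mem_union, Finset.mem_filter, Finset.mem_univ, true_and, not_or,
          mul_one] at hx ⊢
        rw [hSU x hx.1, hSU _ hx.2, hmem, hmem]
      · have h3 := Finset.card_union_le (univ.filter fun x => x * 1 ∈ U)
          (univ.filter fun x => x * c ∈ U)
        rw [card_mul_mem, card_mul_mem] at h3
        have h4 : ((((univ.filter fun x => x * 1 ∈ U) ∪
          (univ.filter fun x => x * c ∈ U)).card : ℕ) : ℝ) ≤ U.card + U.card := by
          exact_mod_cast h3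
        linarith
    have h5 := abs_sub_le ((S.filter fun x => x * c ∈ S).card : ℝ)
      (fS (Sum.inr (Sum.inl c)) ω) ((m : ℝ) ^ 2 / n)
    have h6 : 10 * ε' * (n : ℝ) ≤ ε * n := mul_le_mul_of_nonneg_right (by linarith) hnpos.le
    have h7 : 0 < ε' * (n : ℝ) := by positivity
    linarith
  · intro a b c ha hb hc hab hac hbc
    have h1 := hω (Sum.inl (a, b, c))
    rw [fS_E2 q a b c ha hb hc hab hac hbc, ← hn] at h1
    have h2 : |((univ.filter fun x => x ∉ S ∧ x * a ∉ S ∧ x * b ∉ S ∧ x * c ∉ S).card : ℝ) -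
        fS (Sum.inl (a, b, c)) ω| ≤ 4 * U.card := by
      refine (card_diff _ _ (((univ.filter fun x => x * 1 ∈ U) ∪
        (univ.filter fun x => x * a ∈ U)) ∪ ((univ.filter fun x => x * b ∈ U) ∪
        (univ.filter fun x => x * c ∈ U))) ?_).trans ?_
      · intro x hx
        simp only [Finset.mem_union, Finset.mem_filter, Finset.mem_univ, true_and, not_or,
          mul_one] at hx ⊢
        rw [hSU x hx.1.1, hSU _ hx.1.2, hSU _ hx.2.1, hSU _ hx.2.2, hmem, hmem, hmem, hmem]
        simp
      · have h3 := Finset.card_union_le ((univ.filter fun x => x * 1 ∈ U) ∪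
          (univ.filter fun x => x * a ∈ U)) ((univ.filter fun x => x * b ∈ U) ∪
          (univ.filter fun x => x * c ∈ U))
        have h4 := Finset.card_union_le (univ.filter fun x => x * 1 ∈ U)
          (univ.filter fun x => x * a ∈ U)
        have h5 := Finset.card_union_le (univ.filter fun x => x * b ∈ U)
          (univ.filter fun x => x * c ∈ U)
        rw [card_mul_mem, card_mul_mem] at h4 h5
        have h6 : (((univ.filter fun x => x * 1 ∈ U) ∪
          (univ.filter fun x => x * a ∈ U)) ∪ ((univ.filter fun x => x * b ∈ U) ∪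
          (univ.filter fun x => x * c ∈ U))).card ≤ 4 * U.card := by omega
        exact_mod_cast h6
    have h3 : (1 - q) ^ 4 ≥ 16 / 81 := by
      have h4 : (2 / 3 : ℝ) ≤ 1 - q := by linarith
      have := pow_le_pow_left₀ (by norm_num : (0 : ℝ) ≤ 2 / 3) h4 4
      norm_num at this ⊢
      linarith
    have h4 : (n : ℝ) * (16 / 81) ≤ n * (1 - q) ^ 4 := mul_le_mul_of_nonneg_left h3 hnpos.le
    have h5 := (abs_le.1 h2).1
    have h6 := (abs_le.1 h1.le).1
    have h7 : ε' * (n : ℝ) ≤ 1 / 300 * n := mul_le_mul_of_nonneg_right he2 hnpos.le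
    have h8 : (n : ℝ) ≤ 8 * (univ.filter fun x => x ∉ S ∧ x * a ∉ S ∧ x * b ∉ S ∧
        x * c ∉ S).card := by linarith
    exact_mod_cast h8

end Pool.OM.helper57
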