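import Pool.Agent.Work.MP_8d2cba_co_helper57.MCD

/-! MP_8d2cba_co: tools for the random constructions (blocks S and RES). -/

set_option autoImplicit false

namespace Pool.OM.helper57

open Finset

/-- probability of a cylinder -/
lemma prob_cyl {ι α : Type} [Fintype ι] [DecidableEq ι] [Fintype α] [DecidableEq α]
    (p : ι → α → ℝ) (hs : ∀ i, ∑ a, p i a = 1) (T : Finset ι) (v : ι → α) :
    ∑ ω : ι → α, (∏ i, p i (ω i)) * (if ∀ i ∈ T, ω i = v i then 1 else 0) =
      ∏ i ∈ T, p i (v i) := by
  have h1 : ∀ ω : ι → α, (∏ i, p i (ω i)) * (if ∀ i ∈ T, ω i = v i then (1 : ℝ) else 0) =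
      ∏ i, (p i (ω i) * (if i ∈ T → ω i = v i then 1 else 0)) := by
    intro ω
    rw [Finset.prod_mul_distrib]
    congr 1
    split_ifs with h
    · symm
      refine Finset.prod_eq_one fun i _ => ?_
      rw [if_pos (h i)]
    · push Not at h
      obtain ⟨i, hi, hne⟩ := h
      symm
      refine Finset.prod_eq_zero (Finset.mem_univ i) ?_
      rw [if_neg]
      intro h'
      exact hne (h' hi)
  simp only [h1]
  rw [← Fintype.piFinset_univ,
    ← Finset.prod_univ_sum (fun _ => univ) fun i a => p i a * (if i ∈ T → a = v i then 1 else 0)]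
  rw [← Finset.prod_subset (Finset.subset_univ T)]
  · refine Finset.prod_congr rfl fun i hi => ?_
    simp [hi]
  · intro i _ hi
    simp [hi, hs]

/-- cardinalities of two sets which agree outside `C` -/
lemma card_diff {X : Type} [DecidableEq X] (A B C : Finset X)
    (h : ∀ x, x ∉ C → (x ∈ A ↔ x ∈ B)) : |(A.card : ℝ) - B.card| ≤ C.card := by
  have h1 : A ⊆ B ∪ C := by
    intro x hx
    by_cases hC : x ∈ C
    · exact Finset.mem_union_right _ hC
    · exact Finset.mem_union_left _ ((h x hC).1 hx)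
  have h2 : B ⊆ A ∪ C := by
    intro x hx
    by_cases hC : x ∈ C
    · exact Finset.mem_union_right _ hC
    · exact Finset.mem_union_left _ ((h x hC).2 hx)
  have h3 : (A.card : ℝ) ≤ B.card + C.card := by
    exact_mod_cast (Finset.card_le_card h1).trans (Finset.card_union_le _ _)
  have h4 : (B.card : ℝ) ≤ A.card + C.card := by
    exact_mod_cast (Finset.card_le_card h2).trans (Finset.card_union_le _ _)
  rw [abs_le]
  constructor <;> linarith

/-- bounded differences of a counting function -/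
lemma bd_count {ι α X : Type} [Fintype X] [DecidableEq X] (Q : X → (ι → α) → Prop)
    [∀ ω, DecidablePred fun x => Q x ω] (S : X → ι → Prop) [∀ i, DecidablePred fun x => S x i]
    (hQ : ∀ x (ω ω' : ι → α), (∀ j, S x j → ω j = ω' j) → (Q x ω → Q x ω'))
    (i : ι) (ω ω' : ι → α) (h : ∀ j, j ≠ i → ω j = ω' j) :
    |((univ.filter fun x => Q x ω).card : ℝ) - (univ.filter fun x => Q x ω').card| ≤
      (univ.filter fun x => S x i).card := by
  refine card_diff _ _ _ fun x hx => ?_
  simp only [Finset.mem_filter, Finset.mem_univ, true_and] at hx ⊢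
  constructor
  · exact hQ x ω ω' fun j hj => h j fun h' => hx (h' ▸ hj)
  · exact hQ x ω' ω fun j hj => (h j fun h' => hx (h' ▸ hj)).symm

lemma exp_small (k : ℕ) (A κ θ : ℝ) (hκ : 0 < κ) (hθ : 0 < θ) :
    ∃ N : ℕ, ∀ n : ℕ, N ≤ n → A * (n : ℝ) ^ k * Real.exp (- (κ * n)) < θ := by
  have h := isLittleO_pow_exp_pos_mul_atTop (k := k) hκ
  have h2 : Filter.Tendsto (fun x : ℝ => x ^ k / Real.exp (κ * x)) Filter.atTop (nhds 0) :=
    h.tendsto_div_nhds_zero
  have h3 : Filter.Tendsto (fun n : ℕ => A * ((n : ℝ) ^ k / Real.exp (κ * n))) Filter.atTop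
      (nhds (A * 0)) := (h2.comp tendsto_natCast_atTop_atTop).const_mul A
  rw [mul_zero] at h3
  obtain ⟨N, hN⟩ := Filter.eventually_atTop.1 (h3.eventually (gt_mem_nhds hθ))
  refine ⟨N, fun n hn => ?_⟩
  have := hN n hn
  rw [Real.exp_neg]
  calc A * (n : ℝ) ^ k * (Real.exp (κ * n))⁻¹ = A * ((n : ℝ) ^ k / Real.exp (κ * n)) := by
        rw [div_eq_mul_inv]; ring
    _ < θ := this

lemma card_mul_mem {G : Type} [Group G] [Fintype G] [DecidableEq G] (a : G) (U : Finset G) :
    (univ.filter fun x => x * a ∈ U).card = U.card := by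
  refine Finset.card_bijective (· * a) (Group.mulRight_bijective a) fun x => ?_
  simp

end Pool.OM.helper57
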